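import Pool.Agent.helper94.T7.DefsF
import Pool.Agent.helper95.T6.SpecE
import Pool.Agent.helper3.T6.DefsH
import Pool.Agent.helper8.T6.SpecC2

set_option autoImplicit false

/-!
# T7 (MP_16912e_nt): the Cohen-Lenstra constant for a positive proportion of the classes of order 5

Page: /team-store/T7_PAGE_helper85.md.  Definitions and the interface statements between the blocks.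
Blocks: Q, R (helper4: `EQC7_stmt`, `RUB_stmt`), TAS (helper94: `TF_stmt`), SM (helper8), C7 (helper46: `CND7_stmt`),
L7 and S7 (helper85: `SLU7_stmt`, `SLL7_stmt`), TOT7 and R7 (helper88: `TOT7_stmt`, final statement).
The regime is `Rg η N Y Y₂` (`Pool/Agent/helper95/T6/SpecE.lean`): `Y ≤ Y₂ ≤ N ^ η * Y`, `N ^ (1 - η) ≤ Y * Y₂ ≤ N`.
-/

namespace Pool.Agent.T7

open Finset Filter NumberField Pool.Agent.helper3.FT Pool.Agent.helper47.RA Pool.Agent.T5 Pool.Agent.T6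
open scoped Topology

/-- the filter of T7 on the points `(N, Y, Y₂)`: `N → ∞`, `Y Y₂ / N → 0` inside `Rg η` -/
noncomputable def F7 (η : ℝ) : Filter (ℝ × ℝ × ℝ) :=
  Filter.comap (fun x : ℝ × ℝ × ℝ => (x.1, x.2.1 * x.2.2 / x.1)) (atTop ×ˢ 𝓝[>] 0) ⊓
    𝓟 {x | 0 < x.2.1 ∧ Rg η x.1 x.2.1 x.2.2}

/-- `Rg` is monotone in `η` -/
theorem Rg_mono {η η' N Y Y₂ : ℝ} (h : η' ≤ η) (hN : 1 ≤ N) (hY : 0 ≤ Y) (hR : Rg η' N Y Y₂) : Rg η N Y Y₂ where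
  r1 := hR.r1
  r2 := hR.r2.trans (mul_le_mul_of_nonneg_right (Real.rpow_le_rpow_of_exponent_le hN h) hY)
  r3 := hR.r3
  r4 := (Real.rpow_le_rpow_of_exponent_le hN (by linarith)).trans hR.r4

/-- **TAS7** (interface, from `EQF (F7 η)` and `TF`): the weighted asymptotic, `ρ = Y Y₂ / N ≤ ρ₀` -/
def TAS7_stmt : Prop :=
  ∃ η : ℝ, 0 < η ∧ η ≤ 1 / 100 ∧ ∃ μ : ℝ → ℝ, ∃ C : ℝ, (∀ κ : ℝ, 0 < κ → κ ≤ 1 / 100 →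
    |μ κ - Real.pi ^ 2 / 2 * (1 - 1 / √2)| ≤ C * κ) ∧
  ∀ κ : ℝ, 0 < κ → κ ≤ 1 / 100 → ∀ w : ℕ, 2 ≤ w → ∀ ε : ℝ, 0 < ε → ∃ ρ₀ N₀ : ℝ, 0 < ρ₀ ∧ ∀ N Y Y₂ : ℝ, N₀ ≤ N →
  0 < Y → Rg η N Y Y₂ → Y * Y₂ ≤ ρ₀ * N → ∀ F : Finset Tpl, (∀ t, t ∈ F ↔ Cen κ N Y Y₂ t) →
    |∑ t ∈ F, fw w t - Y * Y₂ * (μ κ * (6 / Real.pi ^ 2) * ∏ p ∈ pr w, (1 - 1 / (p : ℝ) ^ 2))| ≤ ε * (Y * Y₂)

/-- **CND7** (interface, block C7): the tuples whose discriminant is not fundamental, at the scale `Y₂ = R √N`, `R` fixed -/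
def CND7_stmt : Prop :=
  ∃ η : ℝ, 0 < η ∧ η ≤ 1 / 100 ∧ ∀ κ : ℝ, 0 < κ → κ ≤ 1 / 100 → ∃ C : ℝ, 1 ≤ C ∧ ∀ w : ℕ, 2 ≤ w →
  ∀ R ε : ℝ, 1 ≤ R → 0 < ε → ∃ κ₀ N₀ : ℝ, 0 < κ₀ ∧ ∀ N Y : ℝ, N₀ ≤ N → N ^ (1 / 2 - η) ≤ Y → Y ≤ κ₀ * √N →
  ∀ F : Finset Tpl, (∀ t ∈ F, Cen κ N Y (R * √N) t ∧ fw w t ≠ 0 ∧ ¬ IsFund (dis t)) →
    (F.card : ℝ) ≤ (C / w + ε) * (Y * (R * √N))

/-- **SLU7** (block S7): upper bound for the slices -/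
def SLU7_stmt : Prop :=
  ∃ δ : ℝ, 0 < δ ∧ ∀ ε : ℝ, 0 < ε → ∃ K₀ κ₀ N₀ : ℝ, 1 ≤ K₀ ∧ 0 < κ₀ ∧ ∀ N Y : ℝ, N₀ ≤ N →
  N ^ (1 / 2 - δ) ≤ Y → Y ≤ κ₀ * √N →
    ∑ D ∈ DN N, ((cA D Y : ℝ) - (cE D Y (K₀ * Y) : ℝ)) ≤ (c0 + ε) * (Y * √N)

/-- **SLL7** (block S7): lower bound for the slices -/
def SLL7_stmt : Prop :=
  ∃ δ : ℝ, 0 < δ ∧ ∀ ε : ℝ, 0 < ε → ∃ l₀ κ₀ N₀ : ℝ, 0 < l₀ ∧ 0 < κ₀ ∧ ∀ N Y : ℝ, N₀ ≤ N →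
  N ^ (1 / 2 - δ) ≤ Y → Y ≤ κ₀ * √N →
    (c0 - ε) * (Y * √N) ≤ ∑ D ∈ DN N, ((cA D Y : ℝ) - (cE D Y (l₀ * √N) : ℝ))

/-- **TOT7** (block TOT7): all ideals of a slice, without logarithm -/
def TOT7_stmt : Prop :=
  ∃ δ C κ₀ N₀ : ℝ, 0 < δ ∧ 1 ≤ C ∧ 0 < κ₀ ∧ ∀ N Y : ℝ, N₀ ≤ N → N ^ (1 / 2 - δ) ≤ Y → Y ≤ κ₀ * √N →
    ∑ D ∈ DN N, (cA D Y : ℝ) ≤ C * (Y * √N)

end Pool.Agent.T7
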