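import Pool.Agent.helper85.T7.SpecS

set_option autoImplicit false

/-! Row t7:LA7: the weighted number of elements, at the scale `Y₂`. -/

namespace Pool.Agent.T7

open Finset NumberField Pool.Agent.helper3.FT Pool.Agent.helper47.RA Pool.Agent.T5 Pool.Agent.T6
open Pool.Agent.helper26.T5 (WW NE)

theorem LA7_rho (W N D Y₂ l A : ℝ) (hW : 0 < W) (hN : 0 < N) (hD : 0 < D) (hDN : D ≤ N) (hA : 0 < A)
    (hl : 0 < l) (hY₂ : 0 < Y₂) (h : A * N ≤ l * Y₂) :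
    2 * W * √D / √(l * (Y₂ * √D / √N)) ≤ 2 * W / √A := by
  have hs : 0 < √D := Real.sqrt_pos.2 hD
  have hsN : 0 < √N := Real.sqrt_pos.2 hN
  have hT : 0 < l * (Y₂ * √D / √N) := by positivity
  rw [div_le_div_iff₀ (Real.sqrt_pos.2 hT) (Real.sqrt_pos.2 hA), mul_assoc (2 * W) (√D)]
  refine mul_le_mul_of_nonneg_left ?_ (by linarith)
  rw [← Real.sqrt_mul hD.le]
  apply Real.sqrt_le_sqrt
  have h1 : l * (Y₂ * √D / √N) = (l * Y₂) * √D / √N := by ring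
  rw [h1, le_div_iff₀ hsN]
  have h2 : √D ≤ √N := Real.sqrt_le_sqrt hDN
  have h3 : D * √N ≤ N * √D := by
    calc D * √N = √D * √D * √N := by rw [Real.mul_self_sqrt hD.le]
      _ = (√D * √N) * √D := by ring
      _ ≤ (√N * √N) * √D := by
          apply mul_le_mul_of_nonneg_right _ hs.le
          exact mul_le_mul_of_nonneg_right h2 hsN.le
      _ = N * √D := by rw [Real.mul_self_sqrt hN.le]
  calc D * A * √N = A * (D * √N) := by ring
    _ ≤ A * (N * √D) := mul_le_mul_of_nonneg_left h3 hA.le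
    _ = (A * N) * √D := by ring
    _ ≤ (l * Y₂) * √D := mul_le_mul_of_nonneg_right h hs.le

theorem LA7 : LA7_stmt := by
  intro w ε hε
  have hWN : 1 ≤ WW w := by
    unfold WW
    exact Nat.one_le_iff_ne_zero.2 (Finset.prod_pos fun p hp => (Finset.mem_filter.1 hp).2.pos).ne'
  have hW1 : (1 : ℝ) ≤ WW w := by exact_mod_cast hWN
  have hW : (0 : ℝ) < WW w := by linarith
  obtain ⟨A, hAdef⟩ : ∃ A : ℝ, A = (36 * WW w / ε) ^ 2 + 4 * (WW w : ℝ) ^ 2 + 1 := ⟨_, rfl⟩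
  have hA1 : 1 ≤ A := by rw [hAdef]; nlinarith [sq_nonneg (36 * WW w / ε), sq_nonneg (WW w : ℝ)]
  have hA0 : 0 < A := by linarith
  have hrA : 2 * (WW w : ℝ) / √A ≤ 1 ∧ 2 * (WW w : ℝ) / √A ≤ ε / 18 := by
    have hsA : 0 < √A := Real.sqrt_pos.2 hA0
    constructor
    · rw [div_le_one hsA]
      apply Real.le_sqrt_of_sq_le
      rw [hAdef]
      nlinarith [sq_nonneg (36 * WW w / ε)]
    · rw [div_le_iff₀ hsA]
      have h1 : 36 * WW w / ε ≤ √A := by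
        apply Real.le_sqrt_of_sq_le
        rw [hAdef]
        nlinarith [sq_nonneg (WW w : ℝ)]
      have h2 : ε / 18 * (36 * WW w / ε) = 2 * WW w := by field_simp; ring
      rw [← h2]
      exact mul_le_mul_of_nonneg_left h1 (by positivity)
  refine ⟨A, hA1, ?_⟩
  intro K _ _ Q N Y Y₂ ℓ a hN0 hD1 hD2 hY₂ hℓpos hAl ha hnE F hF
  have hsN : 0 < √N := Real.sqrt_pos.2 hN0
  have ha' := ha
  obtain ⟨hab, hap, ha5, hnp, -, -⟩ := ha
  have hDp : 0 < -(Q.D : ℝ) := by linarith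
  have hDneg : Q.D < 0 := by
    have : (Q.D : ℝ) < 0 := by linarith
    exact_mod_cast this
  have habs : |(Q.D : ℝ)| = -(Q.D : ℝ) := abs_of_neg (by linarith)
  have hsD : 0 < √(-(Q.D : ℝ)) := Real.sqrt_pos.2 hDp
  have hTpos : 0 < Y₂ * √(-(Q.D : ℝ)) / √N := by positivity
  have hTs : Y₂ * √(-(Q.D : ℝ)) / √N / √|(Q.D : ℝ)| = Y₂ / √N := by
    rw [habs]
    field_simp
  have hNE : NE Q a ℓ := by
    intro α hα hα0
    by_contra hcon
    push Not at hcon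
    exact hnE ⟨ha', α, hα, hα0, hcon⟩
  have hρle : 2 * WW w * √|(Q.D : ℝ)| / √(ℓ * (Y₂ * √(-(Q.D : ℝ)) / √N)) ≤ 2 * WW w / √A := by
    rw [habs]
    exact LA7_rho _ N _ Y₂ ℓ A hW hN0 hDp hD2 hA0 hℓpos hY₂ hAl
  obtain ⟨P, hP, hsum⟩ := Pool.Agent.helper26.T5.AllL.aL1 K Q a w ℓ (Y₂ * √(-(Q.D : ℝ)) / √N) _ hDneg hap hab hℓpos
    hTpos hNE rfl (hρle.trans hrA.1)
  have hPF : P = F := by
    ext α
    rw [hP, hF]
  rw [hPF, hTs] at hsum
  refine hsum.trans ?_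
  have hB0 : 0 ≤ Y₂ / √N := by positivity
  refine mul_le_mul_of_nonneg_right ?_ hB0
  have := hρle.trans hrA.2
  linarith

end Pool.Agent.T7
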