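import Pool.Agent.helper85.T7.SpecS

set_option autoImplicit false

/-! Row t7:LB7: outside the good region, at the scale `Y₂` (port of T5, row LF2, helper14). -/

namespace Pool.Agent.T7

open Finset NumberField Pool.Agent.helper3.FT Pool.Agent.helper47.RA Pool.Agent.T5 Pool.Agent.T6
open Pool.Agent.helper26.T5 (WW NE BadDir nn)

theorem LB7_neg {K : Type} [Field K] [NumberField K] (Q : QF K) (γ : 𝓞 K) :
    |Q.Y (-γ)| = |Q.Y γ| ∧ Q.v₁ (-γ) = Q.v₁ γ := by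
  have h : -γ = ((-1 : ℤ) : 𝓞 K) * γ := by
    push_cast
    ring
  constructor
  · rw [h, Q.Y_int_mul, abs_mul]
    norm_num
  · rw [h, Q.v₁_mul, Q.v₁_int]
    norm_num

theorem LB7_rho (W N D Y₂ l A : ℝ) (hW : 0 < W) (hN : 0 < N) (hD : 0 < D) (hDN : D ≤ N) (hA : 0 < A)
    (hl : 0 < l) (hY₂ : 0 < Y₂) (h : A * N ≤ l * Y₂) :
    2 * W * √D / √(l * (Y₂ * √D / √N)) ≤ 2 * W / √A := by
  have hs : 0 < √D := Real.sqrt_pos.2 hD
  have hsN : 0 < √N := Real.sqrt_pos.2 hN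
  have hT : 0 < l * (Y₂ * √D / √N) := by positivity
  rw [div_le_div_iff₀ (Real.sqrt_pos.2 hT) (Real.sqrt_pos.2 hA), mul_assoc (2 * W) (√D)]
  refine mul_le_mul_of_nonneg_left ?_ (by linarith)
  rw [← Real.sqrt_mul hD.le]
  apply Real.sqrt_le_sqrt
  have h1 : l * (Y₂ * √D / √N) = (l * Y₂) * √D / √N := by ring
  rw [h1, le_div_iff₀ hsN]
  have h2 : √D ≤ √N := Real.sqrt_le_sqrt hDN
  have h3 : D * √N ≤ N * √D := by
    calc D * √N = √D * √D * √N := by rw [Real.mul_self_sqrt hD.le]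
      _ = (√D * √N) * √D := by ring
      _ ≤ (√N * √N) * √D := by
          apply mul_le_mul_of_nonneg_right _ hs.le
          exact mul_le_mul_of_nonneg_right h2 hsN.le
      _ = N * √D := by rw [Real.mul_self_sqrt hN.le]
  calc D * A * √N = A * (D * √N) := by ring
    _ ≤ A * (N * √D) := mul_le_mul_of_nonneg_left h3 hA.le
    _ = (A * N) * √D := by ring
    _ ≤ (l * Y₂) * √D := mul_le_mul_of_nonneg_right h hs.le

theorem LB7 : LB7_stmt := by
  intro w ε hε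
  have hWN : 1 ≤ WW w := by
    unfold WW
    exact Nat.one_le_iff_ne_zero.2 (Finset.prod_pos fun p hp => (Finset.mem_filter.1 hp).2.pos).ne'
  have hW1 : (1 : ℝ) ≤ WW w := by exact_mod_cast hWN
  have hW : (0 : ℝ) < WW w := by linarith
  obtain ⟨A, hAdef⟩ : ∃ A : ℝ, A = (200 * WW w / ε) ^ 2 + 4 * (WW w : ℝ) ^ 2 + 1 := ⟨_, rfl⟩
  have hA1 : 1 ≤ A := by rw [hAdef]; nlinarith [sq_nonneg (200 * WW w / ε), sq_nonneg (WW w : ℝ)]
  have hA0 : 0 < A := by linarith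
  have hrA : 2 * (WW w : ℝ) / √A ≤ 1 ∧ 2 * (WW w : ℝ) / √A ≤ ε / 100 := by
    have hsA : 0 < √A := Real.sqrt_pos.2 hA0
    constructor
    · rw [div_le_one hsA]
      apply Real.le_sqrt_of_sq_le
      rw [hAdef]
      nlinarith [sq_nonneg (200 * WW w / ε)]
    · rw [div_le_iff₀ hsA]
      have h1 : 200 * WW w / ε ≤ √A := by
        apply Real.le_sqrt_of_sq_le
        rw [hAdef]
        nlinarith [sq_nonneg (WW w : ℝ)]
      have h2 : ε / 100 * (200 * WW w / ε) = 2 * WW w := by field_simp; ring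
      rw [← h2]
      exact mul_le_mul_of_nonneg_left h1 (by positivity)
  refine ⟨A, hA1, ?_⟩
  intro K _ _ Q κ N Y Y₂ ℓ a hκ hκ' hN10 hD1 hD2 hY₂ hℓpos hAl ha hnE F hF
  have hN0 : 0 < N := by linarith
  have hsN : 0 < √N := Real.sqrt_pos.2 hN0
  have ha' := ha
  obtain ⟨hab, hap, ha5, hnp, -, -⟩ := ha
  -- the discriminant
  have hDr : (Q.D : ℝ) < -4 := by linarith
  have hDZ : Q.D < -4 := by exact_mod_cast hDr
  have hDneg : Q.D < 0 := by linarith
  have hDp : 0 < -(Q.D : ℝ) := by linarith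
  have habs : |(Q.D : ℝ)| = -(Q.D : ℝ) := abs_of_neg (by linarith)
  have hsD : 0 < √(-(Q.D : ℝ)) := Real.sqrt_pos.2 hDp
  obtain ⟨B, hB⟩ : ∃ B : ℝ, B = Y₂ / √N := ⟨_, rfl⟩
  have hNd : 0 < B := by rw [hB]; positivity
  set T : ℝ := Y₂ * √(-(Q.D : ℝ)) / √N with hT
  have hTB : T = B * √(-(Q.D : ℝ)) := by rw [hT, hB]; ring
  have hTpos : 0 < T := by rw [hTB]; exact mul_pos hNd hsD
  have hTs : T / √|(Q.D : ℝ)| = Y₂ / √N := by
    rw [habs, hTB, mul_div_assoc, div_self hsD.ne', mul_one, hB]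
  have hNE : NE Q a ℓ := by
    intro α hα hα0
    by_contra hcon
    push Not at hcon
    exact hnE ⟨ha', α, hα, hα0, hcon⟩
  -- the generator
  obtain ⟨θ, hθ⟩ := ha5
  have hθs : Ideal.span {θ} = a ^ 5 := hθ.symm
  have hθ0 : θ ≠ 0 := by
    rintro rfl
    rw [Ideal.span_singleton_eq_bot.2 rfl] at hθs
    exact (pow_ne_zero 5 hab) (by rw [← hθs]; rfl)
  obtain ⟨-, -, hgen⟩ := Pool.Agent.helper26.T5.AllL.aLYT K Q a θ hDZ hab hθs hnp
  obtain ⟨E, hE1, hE2, hE3, hE4, hE5⟩ := Pool.Agent.helper26.T5.lemb K Q hDneg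
  set Z : ℝ := (Ideal.absNorm a : ℝ) with hZ
  have hZpos : 0 < Z := by
    have h1 : Ideal.absNorm a ≠ 0 := by
      rw [Ne, Ideal.absNorm_eq_zero_iff]
      exact hab
    have h2 : 0 < Ideal.absNorm a := Nat.pos_of_ne_zero h1
    rw [hZ]
    exact_mod_cast h2
  have hvθ : Q.v₁ θ ^ 2 = Z ^ 5 := by
    rw [← hE4 θ]
    unfold nn
    rw [hθs, map_pow]
    push_cast
    rfl
  -- rho
  set ρ : ℝ := 2 * WW w * √|(Q.D : ℝ)| / √(ℓ * T) with hρ
  have hρle : ρ ≤ 2 * WW w / √A := by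
    rw [hρ, habs, hT]
    exact LB7_rho _ N _ Y₂ ℓ A hW hN0 hDp hD2 hA0 hℓpos hY₂ hAl
  have hρ1 : ρ ≤ 1 := le_trans hρle hrA.1
  have hρ2 : ρ ≤ ε / 100 := le_trans hρle hrA.2
  -- the bad directions
  have hbad : ∀ α ∈ F, α ∈ AL Q a T ∧ BadDir Q a θ (2 * κ) T α := by
    intro α hα
    obtain ⟨hαL, γ, ⟨θ', hθ', hγ⟩, hG⟩ := hF α hα
    refine ⟨hαL, ?_⟩
    obtain ⟨hα2, hαY, hαv⟩ := hαL
    have hα0 : α ≠ 0 := by
      rintro rfl
      have h0 : Q.Y (0 : 𝓞 K) = 0 := by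
        have := Q.Y_int_mul 0 (0 : 𝓞 K)
        simpa using this
      rw [h0] at hαY
      exact lt_irrefl _ hαY
    have hnn : nn α = Ideal.absNorm a ^ 2 * lamI a α :=
      (Pool.Agent.helper26.T5.AllL.aLAW K Q a α 2 hap hab Nat.prime_two hα0 hα2).1
    set Λ : ℝ := (lamI a α : ℝ) with hΛ
    have hΛ0 : 0 ≤ Λ := Nat.cast_nonneg _
    have hvα2 : Q.v₁ α ^ 2 = Z ^ 2 * Λ := by
      rw [← hE4 α, hnn]
      push_cast
      rfl
    have hvα : Q.v₁ α = Z * √Λ := by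
      have h1 : Q.v₁ α ^ 2 = (Z * √Λ) ^ 2 := by
        rw [hvα2, mul_pow, Real.sq_sqrt hΛ0]
      exact (pow_left_inj₀ (Q.v₁_nonneg α) (by positivity) two_ne_zero).1 h1
    -- the size of gamma
    have hvγ : Q.v₁ γ = √Z * Λ := by
      have h1 : Q.v₁ γ * Q.v₁ θ' = Z * Q.v₁ α ^ 2 := by
        have h2 := congrArg Q.v₁ hγ
        rw [Q.v₁_mul, Q.v₁_mul] at h2
        have h3 : Q.v₁ (Ideal.absNorm a : 𝓞 K) = Z := by
          have h4 := Q.v₁_int (Ideal.absNorm a : ℤ)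
          rw [Int.cast_natCast] at h4
          rw [h4, hZ]
          rw [abs_of_nonneg (by positivity)]
          push_cast
          rfl
        rw [h2, h3, pow_two, pow_two, Q.v₁_mul]
      have h5 : Q.v₁ θ' ^ 2 = Z ^ 5 := by
        rcases hgen θ' hθ'.symm with h | h
        · rw [h, hvθ]
        · rw [h, (LB7_neg Q θ).2, hvθ]
      have h6 : Q.v₁ γ ^ 2 = (√Z * Λ) ^ 2 := by
        have h7 : Q.v₁ γ ^ 2 * Z ^ 5 = (√Z * Λ) ^ 2 * Z ^ 5 := by
          rw [← h5, ← mul_pow, h1, hvα2, mul_pow (√Z), Real.sq_sqrt hZpos.le, h5]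
          ring
        exact mul_right_cancel₀ (pow_ne_zero 5 hZpos.ne') h7
      exact (pow_left_inj₀ (Q.v₁_nonneg γ) (by positivity) two_ne_zero).1 h6
    unfold GoodR at hG
    by_cases c1 : κ * Y₂ ≤ Λ
    · by_cases c2 : 2 * κ * Z * √Λ ≤ (Q.Y α : ℝ) * √(-(Q.D : ℝ))
      · have c3 : ¬ 2 * κ * √Z * Λ ≤ |(Q.Y γ : ℝ)| * √(-(Q.D : ℝ)) := fun h => hG ⟨c1, c2, h⟩
        push Not at c3
        refine Or.inr (Or.inr ?_)
        have c4 : |(Q.Y γ : ℝ)| * √|(Q.D : ℝ)| ≤ 2 * (2 * κ) * Q.v₁ γ := by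
          rw [habs, hvγ]
          have : 0 ≤ 2 * κ * √Z * Λ := by positivity
          linarith
        rcases hgen θ' hθ'.symm with h | h
        · exact ⟨γ, by rw [← h]; exact hγ, c4⟩
        · refine ⟨-γ, ?_, ?_⟩
          · rw [← hγ, h]
            ring
          · have h8 : |(Q.Y (-γ) : ℝ)| = |(Q.Y γ : ℝ)| := by
              have := (LB7_neg Q γ).1
              exact_mod_cast this
            rw [h8, (LB7_neg Q γ).2]
            exact c4
      · push Not at c2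
        refine Or.inr (Or.inl ?_)
        rw [habs, hvα]
        have : 0 ≤ 2 * κ * Z * √Λ := by positivity
        linarith
    · push Not at c1
      refine Or.inl ?_
      rw [hvα2]
      have h9 : Y₂ ≤ 2 * T := by
        have h10 : √N ≤ 2 * √(-(Q.D : ℝ)) := by
          have h11 : √N ≤ √(4 * -(Q.D : ℝ)) := Real.sqrt_le_sqrt (by linarith)
          have h12 : √(4 * -(Q.D : ℝ)) = 2 * √(-(Q.D : ℝ)) := by
            rw [Real.sqrt_mul (by norm_num)]
            have : √(4 : ℝ) = 2 := by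
              rw [show (4 : ℝ) = 2 ^ 2 by norm_num]
              exact Real.sqrt_sq (by norm_num)
            rw [this]
          rwa [h12] at h11
        rw [hT, ← mul_div_assoc, le_div_iff₀ hsN]
        have := mul_le_mul_of_nonneg_left h10 hY₂.le
        linarith
      have h13 : Λ ≤ 2 * κ * T := by
        have := mul_le_mul_of_nonneg_left h9 hκ.le
        linarith
      have h14 := mul_le_mul_of_nonneg_left h13 (by positivity : 0 ≤ Z ^ 2)
      linarith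
  have hfin := Pool.Agent.helper26.T5.AllL.aL2 K Q a θ w ℓ T ρ (2 * κ) hDneg hap hab hℓpos hTpos hNE hθ0 hρ hρ1
    (by linarith) (by linarith) F hbad
  rw [hTs] at hfin
  refine le_trans hfin ?_
  have hB0 : 0 ≤ Y₂ / √N := by rw [← hB]; exact hNd.le
  refine mul_le_mul_of_nonneg_right ?_ hB0
  linarith

end Pool.Agent.T7
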