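import Pool.Agent.helper85.T7.SpecS

set_option autoImplicit false

/-! Row t7:LE7: elements of content one at the scale `R √N`. -/

namespace Pool.Agent.T7

open Finset NumberField Pool.Agent.helper3.FT Pool.Agent.helper47.RA Pool.Agent.T5 Pool.Agent.T6

theorem LE7_prop {K : Type} [Field K] [NumberField K] (Q : QF K) (hD : Q.D < 0) (a : Ideal (𝓞 K)) (α β : 𝓞 K)
    (g1 : α ∈ a ^ 2) (k1 : β ∈ a ^ 2) (g2 : 0 < Q.Y α) (k2 : 0 < Q.Y β)
    (g4 : ∀ q : ℕ, q.Prime → ¬ Ideal.span {(q : 𝓞 K)} * a ^ 2 ∣ Ideal.span {α})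
    (k4 : ∀ q : ℕ, q.Prime → ¬ Ideal.span {(q : 𝓞 K)} * a ^ 2 ∣ Ideal.span {β})
    (h0 : Q.Y (Q.cj α * β) = 0) : α = β := by
  obtain ⟨E, E1, E2, E3, E4, E5⟩ := Pool.Agent.helper26.T5.lemb K Q hD
  have hnn : ∀ x : 𝓞 K, x ≠ 0 → 0 < Pool.Agent.helper26.T5.nn x := by
    intro x hx
    refine Nat.pos_of_ne_zero fun h => hx ?_
    exact Ideal.span_singleton_eq_bot.1 (Ideal.absNorm_eq_zero_iff.1 h)
  have hα0 : α ≠ 0 := by
    rintro rfl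
    have : Q.Y (0 : 𝓞 K) = 0 := by
      have := Q.Y_int 0
      simpa using this
    omega
  obtain ⟨c, hc⟩ := (Q.Y_eq_zero_iff _).1 h0
  have hN : ((Pool.Agent.helper26.T5.nn α : ℤ) : 𝓞 K) * β = c * α := by
    have e1 := E5 α
    calc ((Pool.Agent.helper26.T5.nn α : ℤ) : 𝓞 K) * β = (Pool.Agent.helper26.T5.nn α : 𝓞 K) * β := by push_cast; rfl
      _ = α * Q.cj α * β := by rw [e1]
      _ = (Q.cj α * β) * α := by ring
      _ = c * α := by rw [hc]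
  have hN0 : (Pool.Agent.helper26.T5.nn α : ℤ) ≠ 0 := by
    have := hnn α hα0
    omega
  have hg : 0 < Int.gcd (Pool.Agent.helper26.T5.nn α : ℤ) c := Int.gcd_pos_of_ne_zero_left _ hN0
  obtain ⟨u, v, huv, hu, hv⟩ := Int.exists_gcd_one hg
  have hg0 : ((Int.gcd (Pool.Agent.helper26.T5.nn α : ℤ) c : ℤ) : 𝓞 K) ≠ 0 := by
    exact_mod_cast hg.ne'
  have huv' : (u : 𝓞 K) * β = v * α := by
    apply mul_left_cancel₀ hg0
    have e2 : (((Pool.Agent.helper26.T5.nn α : ℤ)) : 𝓞 K) =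
        (u : 𝓞 K) * ((Int.gcd (Pool.Agent.helper26.T5.nn α : ℤ) c : ℤ) : 𝓞 K) := by
      conv_lhs => rw [hu]
      push_cast
      rfl
    have e3 : (c : 𝓞 K) = (v : 𝓞 K) * ((Int.gcd (Pool.Agent.helper26.T5.nn α : ℤ) c : ℤ) : 𝓞 K) := by
      conv_lhs => rw [hv]
      push_cast
      rfl
    rw [e2] at hN
    generalize ((Int.gcd (Pool.Agent.helper26.T5.nn α : ℤ) c : ℤ) : 𝓞 K) = G at *
    rw [e3] at hN
    linear_combination hN
  have hcop2 : IsCoprime u v := Int.isCoprime_iff_gcd_eq_one.2 huv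
  have u1 := Pool.Agent.helper26.T5.LP_unit a α β u v g1 k1 g4 huv' hcop2
  have v1 := Pool.Agent.helper26.T5.LP_unit a β α v u k1 g1 k4 huv'.symm hcop2.symm
  have hYe : u * Q.Y β = v * Q.Y α := by
    have := congrArg Q.Y huv'
    rwa [Q.Y_int_mul, Q.Y_int_mul] at this
  rcases Int.natAbs_eq_iff.1 u1 with hu1 | hu1 <;> rcases Int.natAbs_eq_iff.1 v1 with hv1 | hv1
  · rw [hu1, hv1] at huv'
    push_cast at huv'
    rw [one_mul, one_mul] at huv'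
    exact huv'.symm
  · rw [hu1, hv1] at hYe
    push_cast at hYe
    omega
  · rw [hu1, hv1] at hYe
    push_cast at hYe
    omega
  · rw [hu1, hv1] at huv'
    push_cast at huv'
    rw [neg_mul, neg_mul, one_mul, one_mul] at huv'
    exact (neg_injective huv').symm

theorem LE7_zero {K : Type} [Field K] [NumberField K] (Q : QF K) (hD : Q.D < 0) (a : Ideal (𝓞 K)) (ha : a ≠ ⊥)
    (α₀ α : 𝓞 K) (h0 : α₀ ∈ a ^ 2) (g1 : α ∈ a ^ 2) (x y : ℝ) (hx : 0 ≤ x) (hy : 0 ≤ y)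
    (hx' : (Q.v₁ α₀) ^ 2 ≤ (Ideal.absNorm a : ℝ) ^ 2 * x) (hy' : (Q.v₁ α) ^ 2 ≤ (Ideal.absNorm a : ℝ) ^ 2 * y)
    (hxy : 4 * (x * y) < -(Q.D : ℝ)) : Q.Y (Q.cj α₀ * α) = 0 := by
  obtain ⟨E, E1, E2, E3, E4, E5⟩ := Pool.Agent.helper26.T5.lemb K Q hD
  by_contra hne
  have hZ : 0 < Ideal.absNorm a := Nat.pos_of_ne_zero fun h => ha (Ideal.absNorm_eq_zero_iff.1 h)
  have hZR : (0 : ℝ) < Ideal.absNorm a := by exact_mod_cast hZ
  have d1 : ((1 * Ideal.absNorm a ^ 2 : ℕ) : ℤ) ∣ Q.Y (Q.cj α₀ * α) :=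
    Pool.Agent.helper26.T5.lrm K Q a 1 α₀ α hD ha squarefree_one (by norm_num)
      (by
        intro p hp hp1
        exact absurd (Nat.dvd_one.1 hp1) hp.one_lt.ne') h0 g1
      (by rw [one_mul]; exact Pool.Agent.helper26.T5.LP_dvd a α₀ h0)
      (by rw [one_mul]; exact Pool.Agent.helper26.T5.LP_dvd a α g1)
  rw [one_mul] at d1
  have h9 := Int.le_of_dvd (abs_pos.2 hne) ((dvd_abs _ _).2 d1)
  have h10 : (Ideal.absNorm a : ℝ) ^ 2 ≤ |(Q.Y (Q.cj α₀ * α) : ℝ)| := by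
    have : ((Ideal.absNorm a ^ 2 : ℕ) : ℝ) ≤ ((|Q.Y (Q.cj α₀ * α)| : ℤ) : ℝ) := by
      exact_mod_cast h9
    push_cast at this
    exact this
  have hDr : 0 < -(Q.D : ℝ) := by
    have : (Q.D : ℝ) < 0 := by exact_mod_cast hD
    linarith
  have habs : |(Q.D : ℝ)| = -(Q.D : ℝ) := abs_of_neg (by linarith)
  have hs : 0 < √(-(Q.D : ℝ)) := Real.sqrt_pos.2 hDr
  -- the imaginary part
  have h11 : |(Q.Y (Q.cj α₀ * α) : ℝ)| * (√(-(Q.D : ℝ)) / 2) ≤ Q.v₁ α₀ * Q.v₁ α := by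
    have e1 : |(E (Q.cj α₀ * α)).im| ≤ ‖E (Q.cj α₀ * α)‖ := Complex.abs_im_le_norm _
    rw [E2, habs, abs_mul, abs_of_pos (half_pos hs), map_mul, norm_mul, E3, Complex.norm_conj, E1, E1] at e1
    exact e1
  have hv0 : 0 ≤ Q.v₁ α₀ := by rw [← E1]; exact norm_nonneg _
  have hv : 0 ≤ Q.v₁ α := by rw [← E1]; exact norm_nonneg _
  have h12 : (Ideal.absNorm a : ℝ) ^ 2 * (√(-(Q.D : ℝ)) / 2) ≤ Q.v₁ α₀ * Q.v₁ α :=
    (mul_le_mul_of_nonneg_right h10 (by positivity)).trans h11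
  have h13 : ((Ideal.absNorm a : ℝ) ^ 2 * (√(-(Q.D : ℝ)) / 2)) ^ 2 ≤ (Q.v₁ α₀ * Q.v₁ α) ^ 2 :=
    pow_le_pow_left₀ (by positivity) h12 2
  have h14 : (Q.v₁ α₀ * Q.v₁ α) ^ 2 ≤ ((Ideal.absNorm a : ℝ) ^ 2 * x) * ((Ideal.absNorm a : ℝ) ^ 2 * y) := by
    rw [mul_pow]
    exact mul_le_mul hx' hy' (by positivity) (by positivity)
  have h15 : ((Ideal.absNorm a : ℝ) ^ 2 * (√(-(Q.D : ℝ)) / 2)) ^ 2 = (Ideal.absNorm a : ℝ) ^ 4 * (-(Q.D : ℝ)) / 4 := by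
    rw [mul_pow, div_pow, Real.sq_sqrt hDr.le]
    ring
  have h16 : (Ideal.absNorm a : ℝ) ^ 4 * (-(Q.D : ℝ)) / 4 ≤ (Ideal.absNorm a : ℝ) ^ 4 * (x * y) := by
    rw [← h15]
    refine (h13.trans h14).trans (le_of_eq ?_)
    ring
  have hZ4 : (0 : ℝ) < (Ideal.absNorm a : ℝ) ^ 4 := by positivity
  have h17 : -(Q.D : ℝ) / 4 ≤ x * y := by
    have : (Ideal.absNorm a : ℝ) ^ 4 * (-(Q.D : ℝ) / 4) ≤ (Ideal.absNorm a : ℝ) ^ 4 * (x * y) := by
      rw [← mul_div_assoc]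
      exact h16
    exact le_of_mul_le_mul_left this hZ4
  linarith

theorem LE7 : LE7_stmt := by
  intro K _ _ Q N R a hN hR hD1 hD2 hP ha F hF
  have hDr : 0 < -(Q.D : ℝ) := by linarith
  have hD0 : Q.D < 0 := by
    have : (Q.D : ℝ) < 0 := by linarith
    exact_mod_cast this
  have habs : |(Q.D : ℝ)| = -(Q.D : ℝ) := abs_of_neg (by linarith)
  have hs : 0 < √(-(Q.D : ℝ)) := Real.sqrt_pos.2 hDr
  have hsN : 0 < √N := Real.sqrt_pos.2 hN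
  have hR0 : 0 < R := by linarith
  have hT : R * √N * √(-(Q.D : ℝ)) / √N = R * √(-(Q.D : ℝ)) := by field_simp
  rw [hT] at hF
  constructor
  · have key := Pool.Agent.helper26.T5.AllL.aLP K Q a (R * √(-(Q.D : ℝ))) 1 1 hD0 ha (by positivity) le_rfl
      (Nat.coprime_one_left _) squarefree_one (by norm_num) (by
        intro p hp hp1
        exact absurd (Nat.dvd_one.1 hp1) hp.one_lt.ne') F (by
        intro α hα
        obtain ⟨h1, h2⟩ := hF α hα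
        refine ⟨h1, h2, by simp, ?_⟩
        rw [one_mul]
        exact Pool.Agent.helper26.T5.LP_dvd a α h1.1)
    rw [habs] at key
    have h6 : 2 * Real.pi * (R * √(-(Q.D : ℝ))) / (((1 : ℕ) : ℝ) * ((1 : ℕ) : ℝ) * √(-(Q.D : ℝ))) =
        2 * Real.pi * R := by
      field_simp
      norm_num
    rw [h6] at key
    have hpi : Real.pi < 3.15 := Real.pi_lt_d2
    nlinarith
  · rintro ⟨α₀, h0, hα0, hle⟩
    rw [Finset.card_le_one]
    intro α hα β hβ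
    obtain ⟨⟨g1, g2, g3⟩, g4⟩ := hF α hα
    obtain ⟨⟨k1, k2, k3⟩, k4⟩ := hF β hβ
    have hbound : 4 * (√N / (6 * R) * (R * √(-(Q.D : ℝ)))) < -(Q.D : ℝ) := by
      have e1 : √N / (6 * R) * (R * √(-(Q.D : ℝ))) = √N * √(-(Q.D : ℝ)) / 6 := by field_simp
      rw [e1]
      have e2 : √N < 3 / 2 * √(-(Q.D : ℝ)) := by
        rw [show (3 : ℝ) / 2 * √(-(Q.D : ℝ)) = √((3 / 2) ^ 2 * (-(Q.D : ℝ))) by
          rw [Real.sqrt_mul (by positivity), Real.sqrt_sq (by norm_num)]]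
        apply Real.sqrt_lt_sqrt hN.le
        linarith
      have e3 : √(-(Q.D : ℝ)) * √(-(Q.D : ℝ)) = -(Q.D : ℝ) := Real.mul_self_sqrt hDr.le
      have e4 : √N * √(-(Q.D : ℝ)) < 3 / 2 * √(-(Q.D : ℝ)) * √(-(Q.D : ℝ)) := mul_lt_mul_of_pos_right e2 hs
      nlinarith
    have z1 := LE7_zero Q hD0 a ha α₀ α h0 g1 _ _ (by positivity) (by positivity) hle g3 hbound
    have z2 := LE7_zero Q hD0 a ha α₀ β h0 k1 _ _ (by positivity) (by positivity) hle k3 hbound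
    obtain ⟨c, hc⟩ := (Q.Y_eq_zero_iff _).1 z1
    obtain ⟨c', hc'⟩ := (Q.Y_eq_zero_iff _).1 z2
    obtain ⟨E, E1, E2, E3, E4, E5⟩ := Pool.Agent.helper26.T5.lemb K Q hD0
    apply LE7_prop Q hD0 a α β g1 k1 g2 k2 g4 k4
    have hnn : (0 : ℤ) < Pool.Agent.helper26.T5.nn α₀ := by
      have : 0 < Pool.Agent.helper26.T5.nn α₀ := by
        refine Nat.pos_of_ne_zero fun h => hα0 ?_
        exact Ideal.span_singleton_eq_bot.1 (Ideal.absNorm_eq_zero_iff.1 h)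
      exact_mod_cast this
    -- conj (cj α₀ * α) = c
    have e1 : α₀ * Q.cj α = (c : 𝓞 K) := by
      have := congrArg Q.cj hc
      rw [map_mul, Q.cj_cj, Q.cj_int] at this
      exact this
    have e2 : ((Pool.Agent.helper26.T5.nn α₀ : ℤ) : 𝓞 K) * (Q.cj α * β) = ((c * c' : ℤ) : 𝓞 K) := by
      have e3 := E5 α₀
      calc ((Pool.Agent.helper26.T5.nn α₀ : ℤ) : 𝓞 K) * (Q.cj α * β)
          = (Pool.Agent.helper26.T5.nn α₀ : 𝓞 K) * (Q.cj α * β) := by push_cast; rfl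
        _ = (α₀ * Q.cj α₀) * (Q.cj α * β) := by rw [e3]
        _ = (α₀ * Q.cj α) * (Q.cj α₀ * β) := by ring
        _ = (c : 𝓞 K) * (c' : 𝓞 K) := by rw [e1, hc']
        _ = _ := by push_cast; rfl
    have e4 := congrArg Q.Y e2
    rw [Q.Y_int_mul, Q.Y_int] at e4
    rcases mul_eq_zero.1 e4 with h | h
    · omega
    · exact h

end Pool.Agent.T7
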