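import Pool.Agent.helper85.T7.SpecS

set_option autoImplicit false

/-! Row t7:MW7: the maximal weight is smaller than `w ^ (1 / 8)`. -/

namespace Pool.Agent.T7

open Finset NumberField Pool.Agent.helper3.FT Pool.Agent.helper47.RA Pool.Agent.T5 Pool.Agent.T6

theorem MW7 : MW7_stmt := by
  have h1 : (fun x : ℝ => Real.log x ^ (4 : ℝ)) =o[Filter.atTop] fun x => x ^ (1 / 8 : ℝ) :=
    isLittleO_log_rpow_rpow_atTop 4 (by norm_num)
  have h2 : Filter.Tendsto (fun x : ℝ => Real.log x ^ (4 : ℝ) / x ^ (1 / 8 : ℝ)) Filter.atTop (nhds 0) :=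
    h1.tendsto_div_nhds_zero
  have h3 : Filter.Tendsto (fun w : ℕ => Real.exp 16 * (Real.log (w : ℝ) ^ (4 : ℝ) / (w : ℝ) ^ (1 / 8 : ℝ)))
      Filter.atTop (nhds 0) := by
    have := (h2.comp tendsto_natCast_atTop_atTop).const_mul (Real.exp 16)
    rw [mul_zero] at this
    exact this
  refine tendsto_of_tendsto_of_tendsto_of_le_of_le' tendsto_const_nhds h3 ?_ ?_
  · refine Filter.Eventually.of_forall ?_
    intro w
    have := SMW.1 w
    exact div_nonneg (by linarith) (Real.rpow_nonneg (Nat.cast_nonneg _) _)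
  · filter_upwards [Filter.eventually_ge_atTop 3] with w hw
    have h4 := SMW_up w hw
    have h5 : Real.log (w : ℝ) ^ (4 : ℝ) = Real.log (w : ℝ) ^ 4 := by
      rw [show (4 : ℝ) = ((4 : ℕ) : ℝ) by norm_num, Real.rpow_natCast]
    rw [h5, ← mul_div_assoc]
    exact div_le_div_of_nonneg_right h4 (Real.rpow_nonneg (Nat.cast_nonneg _) _)

end Pool.Agent.T7
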