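import Pool.Agent.helper85.T7.SpecS

set_option autoImplicit false

/-! Row t7:SLD7: the lower inequality for fixed `κ, w` at the scale `R √N` (compare T5, row SLD, helper82). -/

namespace Pool.Agent.T7

open Finset NumberField Pool.Agent.helper3.FT Pool.Agent.helper47.RA Pool.Agent.T5 Pool.Agent.T6

/-- the inequality for one discriminant -/
theorem SLD7_D (w : ℕ) (N Y R A ε : ℝ)
    (h : ∀ (K : Type) [Field K] [NumberField K] (Q : QF K), Module.finrank ℚ K = 2 →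
      N / 2 < -(Q.D : ℝ) → -(Q.D : ℝ) ≤ N →
      (∑ᶠ x ∈ G07 Q N Y (R * √N), wt Q w x.1 x.2) ≤
        (Real.pi + ε) * R * (((IA K Y).ncard : ℝ) - ((EX Q Y (A * √N / R)).ncard : ℝ)) +
        MW w * (8 * R) * (((EX Q Y (A * √N / R)).ncard : ℝ) - ((EX Q Y (√N / (6 * R))).ncard : ℝ)) +
        MW w * ((EX Q Y (√N / (6 * R))).ncard : ℝ))
    (D : ℤ) (hD : D ∈ DN N) :
    SF (fun _ E => ∑ᶠ x ∈ G07 E.Q N Y (R * √N), wt E.Q w x.1 x.2) D ≤
      (Real.pi + ε) * R * ((cA D Y : ℝ) - (cE D Y (A * √N / R) : ℝ)) +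
      MW w * (8 * R) * ((cE D Y (A * √N / R) : ℝ) - (cE D Y (√N / (6 * R)) : ℝ)) +
      MW w * (cE D Y (√N / (6 * R)) : ℝ) := by
  obtain ⟨h1, h2, h3, h4⟩ := SLD_mem hD
  by_cases hne : Nonempty (Fld D)
  · have e1 : cA D Y = (IA hne.some.K Y).ncard := by unfold cA; rw [dif_pos hne]
    have e2 : ∀ B, cE D Y B = (EX hne.some.Q Y B).ncard := by intro B; unfold cE; rw [dif_pos hne]
    have e3 : SF (fun _ E => ∑ᶠ x ∈ G07 E.Q N Y (R * √N), wt E.Q w x.1 x.2) D =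
        ∑ᶠ x ∈ G07 hne.some.Q N Y (R * √N), wt hne.some.Q w x.1 x.2 := by
      unfold SF; rw [dif_pos hne]
    rw [e1, e2, e2, e3]
    have hq : hne.some.Q.D = D := hne.some.hD
    exact h hne.some.K hne.some.Q hne.some.fin (by rw [hq]; exact h2) (by rw [hq]; exact h3)
  · have e1 : cA D Y = 0 := by unfold cA; rw [dif_neg hne]
    have e2 : ∀ B, cE D Y B = 0 := by intro B; unfold cE; rw [dif_neg hne]
    have e3 : SF (fun _ E => ∑ᶠ x ∈ G07 E.Q N Y (R * √N), wt E.Q w x.1 x.2) D = 0 := by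
      unfold SF; rw [dif_neg hne]
    rw [e1, e2, e2, e3]
    simp

theorem SLD7_final (W S T Rt s C₂ M m ε wi sw RX : ℝ) (hM : 1 ≤ M) (hC₂ : 1 ≤ C₂) (hε : 0 < ε)
    (hRX : 0 ≤ RX) (hws : wi ≤ sw) (hm : m = M * sw)
    (h1 : W ≤ S + M * T) (h2 : S ≤ Rt) (h3 : T ≤ (C₂ * wi + ε / (2 * M)) * RX)
    (h4 : |W - RX * s| ≤ ε / 2 * RX) : (s - C₂ * m - ε) * RX ≤ Rt := by
  have hW : RX * s - ε / 2 * RX ≤ W := by
    have := (abs_le.1 h4).1
    linarith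
  have hM0 : 0 < M := by linarith
  have hMT : M * T ≤ (C₂ * m + ε / 2) * RX := by
    have hwi : C₂ * wi ≤ C₂ * sw := mul_le_mul_of_nonneg_left hws (by linarith)
    calc M * T ≤ M * ((C₂ * wi + ε / (2 * M)) * RX) := mul_le_mul_of_nonneg_left h3 hM0.le
      _ ≤ M * ((C₂ * sw + ε / (2 * M)) * RX) := by
          apply mul_le_mul_of_nonneg_left _ hM0.le
          apply mul_le_mul_of_nonneg_right _ hRX
          linarith
      _ = (C₂ * m + ε / 2) * RX := by rw [hm]; field_simp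
  nlinarith

theorem SLD7_ev (c x : ℝ) (hc : 0 < c) : ∃ N₀ : ℝ, ∀ N : ℝ, N₀ ≤ N → x ≤ N ^ c := by
  have h := (tendsto_rpow_atTop hc).eventually_ge_atTop x
  obtain ⟨N₀, h⟩ := Filter.eventually_atTop.1 h
  exact ⟨N₀, h⟩

theorem SLD7 (hSLA7 : SLA7_stmt) (hSLB7 : SLB7_stmt) : SLD7_stmt := by
  classical
  intro hCND η₁ μ hη₁ hAS
  obtain ⟨η₂, hη₂, hη₂', hCND⟩ := hCND
  obtain ⟨δ, hδdef⟩ : ∃ δ : ℝ, δ = min η₁ η₂ / 4 := ⟨_, rfl⟩
  have hδ0 : 0 < δ := by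
    rw [hδdef]
    have := lt_min hη₁ hη₂
    linarith
  have hδ1 : δ ≤ η₁ / 4 := by
    rw [hδdef]
    have := min_le_left η₁ η₂
    linarith
  have hδ2 : δ ≤ η₂ / 4 := by
    rw [hδdef]
    have := min_le_right η₁ η₂
    linarith
  refine ⟨δ, hδ0, ?_⟩
  intro κ hκ hκ1
  obtain ⟨C₂, hC₂, hC⟩ := hCND κ hκ hκ1
  refine ⟨C₂, hC₂, ?_⟩
  intro w hw ε hε
  have hM : 1 ≤ MW w := SMW.1 w
  have hM0 : 0 < MW w := by linarith
  obtain ⟨A, hA, hA'⟩ := hSLA7 w ε hε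
  refine ⟨A, hA, ?_⟩
  intro R hR
  have hR0 : 0 < R := by linarith
  obtain ⟨κ₂, N₂, hκ₂, h2⟩ := hC w hw R (ε / (2 * MW w)) hR (by positivity)
  obtain ⟨ρ₀, N₁, hρ₀, h1⟩ := hAS κ hκ hκ1 w hw (ε / 2) (by positivity)
  obtain ⟨N₃, h3⟩ := SLD7_ev (η₁ / 2) R (by positivity)
  obtain ⟨N₄, h4⟩ := SLD7_ev (1 / 4) 3 (by norm_num)
  refine ⟨min κ₂ (min ρ₀ 1 / R), max (max N₁ N₂) (max (max N₃ N₄) 100), ?_, ?_⟩
  · exact lt_min hκ₂ (div_pos (lt_min hρ₀ one_pos) hR0)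
  intro N Y hN hY1 hY2
  have hN1 : N₁ ≤ N := le_trans (le_trans (le_max_left _ _) (le_max_left _ _)) hN
  have hN2 : N₂ ≤ N := le_trans (le_trans (le_max_right _ _) (le_max_left _ _)) hN
  have hN3 : N₃ ≤ N := le_trans (le_trans (le_trans (le_max_left _ _) (le_max_left _ _)) (le_max_right _ _)) hN
  have hN4 : N₄ ≤ N := le_trans (le_trans (le_trans (le_max_right _ _) (le_max_left _ _)) (le_max_right _ _)) hN
  have hN100 : 100 ≤ N := le_trans (le_trans (le_max_right _ _) (le_max_right _ _)) hN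
  have hN0 : 0 < N := by linarith
  have hN1' : 1 ≤ N := by linarith
  have hsN : 0 < √N := Real.sqrt_pos.2 hN0
  have hs10 : 10 ≤ √N := by
    apply Real.le_sqrt_of_sq_le
    linarith
  have hss : √N * √N = N := Real.mul_self_sqrt hN0.le
  have hY0 : 0 < Y := lt_of_lt_of_le (Real.rpow_pos_of_pos hN0 _) hY1
  have hYk2 : Y ≤ κ₂ * √N := hY2.trans (mul_le_mul_of_nonneg_right (min_le_left _ _) hsN.le)
  have hYk3 : Y ≤ min ρ₀ 1 / R * √N := hY2.trans (mul_le_mul_of_nonneg_right (min_le_right _ _) hsN.le)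
  have hYR : Y * R ≤ min ρ₀ 1 * √N := by
    calc Y * R ≤ min ρ₀ 1 / R * √N * R := mul_le_mul_of_nonneg_right hYk3 hR0.le
      _ = min ρ₀ 1 * √N := by field_simp
  have hYs : Y ≤ √N := by
    calc Y ≤ Y * R := le_mul_of_one_le_right hY0.le hR
      _ ≤ min ρ₀ 1 * √N := hYR
      _ ≤ 1 * √N := mul_le_mul_of_nonneg_right (min_le_right _ _) hsN.le
      _ = √N := one_mul _
  have hRX : Y * (R * √N) = Y * R * √N := by ring
  have hρ : Y * (R * √N) ≤ ρ₀ * N := by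
    calc Y * (R * √N) = Y * R * √N := hRX
      _ ≤ (min ρ₀ 1 * √N) * √N := mul_le_mul_of_nonneg_right hYR hsN.le
      _ = min ρ₀ 1 * N := by rw [mul_assoc, hss]
      _ ≤ ρ₀ * N := mul_le_mul_of_nonneg_right (min_le_left _ _) hN0.le
  have hρ1 : Y * (R * √N) ≤ N := by
    calc Y * (R * √N) = Y * R * √N := hRX
      _ ≤ (min ρ₀ 1 * √N) * √N := mul_le_mul_of_nonneg_right hYR hsN.le
      _ = min ρ₀ 1 * N := by rw [mul_assoc, hss]
      _ ≤ 1 * N := mul_le_mul_of_nonneg_right (min_le_right _ _) hN0.le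
      _ = N := one_mul _
  have hs' : √N = N ^ (1 / 2 : ℝ) := Real.sqrt_eq_rpow N
  have hRg : Rg η₁ N Y (R * √N) := by
    refine ⟨?_, ?_, hρ1, ?_⟩
    · calc Y ≤ √N := hYs
        _ ≤ R * √N := le_mul_of_one_le_left hsN.le hR
    · calc R * √N ≤ N ^ (η₁ / 2) * √N := mul_le_mul_of_nonneg_right (h3 N hN3) hsN.le
        _ = N ^ (η₁ / 2 + 1 / 2) := by rw [hs', ← Real.rpow_add hN0]
        _ ≤ N ^ (η₁ + (1 / 2 - δ)) := Real.rpow_le_rpow_of_exponent_le hN1' (by linarith)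
        _ = N ^ η₁ * N ^ (1 / 2 - δ) := Real.rpow_add hN0 _ _
        _ ≤ N ^ η₁ * Y := mul_le_mul_of_nonneg_left hY1 (Real.rpow_nonneg hN0.le _)
    · calc N ^ (1 - η₁) ≤ N ^ (1 / 2 - δ + 1 / 2) := Real.rpow_le_rpow_of_exponent_le hN1' (by linarith)
        _ = N ^ (1 / 2 - δ) * √N := by rw [hs', ← Real.rpow_add hN0]
        _ ≤ Y * √N := mul_le_mul_of_nonneg_right hY1 hsN.le
        _ ≤ Y * (R * √N) := by
            apply mul_le_mul_of_nonneg_left _ hY0.le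
            exact le_mul_of_one_le_left hsN.le hR
  have hYc : N ^ (1 / 2 - η₂) ≤ Y :=
    (Real.rpow_le_rpow_of_exponent_le hN1' (by linarith)).trans hY1
  have hY3 : 2 < Y := by
    have e1 : N ^ (1 / 4 : ℝ) ≤ N ^ (1 / 2 - δ) :=
      Real.rpow_le_rpow_of_exponent_le hN1' (by linarith)
    have := h4 N hN4
    linarith
  have hYN : 8 * Y < N := by nlinarith
  have hY20 : 0 < R * √N := by positivity
  have hfin := SFC AIST κ N Y (R * √N) hκ hN0 hY0 hY20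
  have hFm : ∀ t, t ∈ hfin.toFinset ↔ Cen κ N Y (R * √N) t := fun t => by
    rw [Set.Finite.mem_toFinset]; rfl
  have k3 := h1 N Y (R * √N) hN1 hY0 hRg hρ hfin.toFinset hFm
  have k2 := h2 N Y hN2 hYc hYk2 (hfin.toFinset.filter (fun t => fw w t ≠ 0 ∧ ¬ IsFund (dis t)))
    (fun t ht => by
      rw [Finset.mem_filter] at ht
      exact ⟨(hFm t).1 ht.1, ht.2⟩)
  have kB := hSLB7 κ N Y (R * √N) hκ (by linarith) hY3 hYN hY20 w
    (hfin.toFinset.filter (fun t => IsFund (dis t)))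
    (fun t ht => by
      rw [Finset.mem_filter] at ht
      exact ⟨(hFm t).1 ht.1, ht.2⟩)
  have kD := fun D hD => SLD7_D w N Y R A ε
    (fun K _ _ Q hfr g1 g2 => hA' K Q N Y R hfr (by linarith) g1 g2 hR) D hD
  have kS := Finset.sum_le_sum kD
  rw [Finset.sum_add_distrib, Finset.sum_add_distrib, ← Finset.mul_sum, ← Finset.mul_sum, ← Finset.mul_sum] at kS
  have ksum := SLD_sum w hfin.toFinset (MW w) (fun t => SMW.2.2.1 w t)
    (hfin.toFinset.filter (fun t => IsFund (dis t)))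
    (hfin.toFinset.filter (fun t => fw w t ≠ 0 ∧ ¬ IsFund (dis t)))
    (fun t => by rw [Finset.mem_filter]) (fun t => by rw [Finset.mem_filter])
  have hX0 : 0 ≤ Y * (R * √N) := by positivity
  have hw1 : (1 : ℝ) ≤ w := by
    have : 1 ≤ w := by omega
    exact_mod_cast this
  have hw0 : (0 : ℝ) < w := by linarith
  refine SLD7_final (∑ t ∈ hfin.toFinset, fw w t)
    (∑ t ∈ hfin.toFinset.filter (fun t => IsFund (dis t)), fw w t)
    ((hfin.toFinset.filter (fun t => fw w t ≠ 0 ∧ ¬ IsFund (dis t))).card : ℝ) _ _ C₂ (MW w)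
    (MW w / (w : ℝ) ^ (1 / 8 : ℝ)) ε (1 / (w : ℝ)) (1 / (w : ℝ) ^ (1 / 8 : ℝ)) (Y * (R * √N))
    hM hC₂ hε hX0 ?_ ?_ ksum (kB.trans kS) ?_ k3
  · apply one_div_le_one_div_of_le (Real.rpow_pos_of_pos hw0 _)
    calc (w : ℝ) ^ (1 / 8 : ℝ) ≤ (w : ℝ) ^ (1 : ℝ) := Real.rpow_le_rpow_of_exponent_le hw1 (by norm_num)
      _ = w := Real.rpow_one _
  · ring
  · calc _ ≤ _ := k2
      _ = _ := by rw [show C₂ * (1 / (w : ℝ)) = C₂ / w by ring]

end Pool.Agent.T7
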