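import Pool.Agent.helper85.T7.SpecS

set_option autoImplicit false

/-! Row t7:SLP7: the pigeonhole over the scales. -/

namespace Pool.Agent.T7

open Finset NumberField Pool.Agent.helper3.FT Pool.Agent.helper47.RA Pool.Agent.T5 Pool.Agent.T6

theorem SLP7_mono (D : ℤ) (Y : ℝ) {B B' : ℝ} (h : B ≤ B') : (cE D Y B : ℝ) ≤ (cE D Y B' : ℝ) := by
  classical
  unfold cE
  split_ifs with hD
  · have hfin : (EX hD.some.Q Y B').Finite := (SFA.1 hD.some.K Y).subset (fun a ha => ha.1)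
    have hsub : EX hD.some.Q Y B ⊆ EX hD.some.Q Y B' := by
      rintro a ⟨ha, α, hα, hα0, hle⟩
      exact ⟨ha, α, hα, hα0, hle.trans (mul_le_mul_of_nonneg_left h (by positivity))⟩
    exact_mod_cast Set.ncard_le_ncard hsub hfin
  · exact le_rfl

theorem SLP7_le (D : ℤ) (Y B : ℝ) : (cE D Y B : ℝ) ≤ (cA D Y : ℝ) := by
  classical
  unfold cE cA
  split_ifs with hD
  · have hfin : (IA hD.some.K Y).Finite := SFA.1 hD.some.K Y
    have hsub : EX hD.some.Q Y B ⊆ IA hD.some.K Y := fun a ha => ha.1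
    exact_mod_cast Set.ncard_le_ncard hsub hfin
  · exact le_rfl

theorem SLP7_min (f : ℕ → ℝ) (hf : ∀ i, 0 < f i) (I : ℕ) : ∃ m : ℝ, 0 < m ∧ ∀ i < I, m ≤ f i := by
  induction I with
  | zero => exact ⟨1, one_pos, fun i hi => absurd hi (Nat.not_lt_zero i)⟩
  | succ n ih =>
    obtain ⟨m, hm, h⟩ := ih
    refine ⟨min m (f n), lt_min hm (hf n), ?_⟩
    intro i hi
    rcases Nat.lt_succ_iff_lt_or_eq.1 hi with h1 | h1
    · exact (min_le_left _ _).trans (h i h1)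
    · rw [h1]
      exact min_le_right _ _

theorem SLP7_max (f : ℕ → ℝ) (I : ℕ) : ∃ m : ℝ, ∀ i < I, f i ≤ m := by
  induction I with
  | zero => exact ⟨0, fun i hi => absurd hi (Nat.not_lt_zero i)⟩
  | succ n ih =>
    obtain ⟨m, h⟩ := ih
    refine ⟨max m (f n), ?_⟩
    intro i hi
    rcases Nat.lt_succ_iff_lt_or_eq.1 hi with h1 | h1
    · exact (h i h1).trans (le_max_left _ _)
    · rw [h1]
      exact le_max_right _ _

theorem SLP7_alg (m X R ε M CT c x S1 S E I : ℝ) (hX : 0 ≤ X) (hR : 0 < R) (hε : 0 < ε) (hM : 1 ≤ M)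
    (hR0 : 4 * M * CT / ε ≤ R) (hI : 32 * M * c / ε ≤ I) (hI0 : 0 < I) (hS : S1 ≤ S) (hS0 : 0 ≤ S)
    (hx : x ≤ c * X / I) (hE : E ≤ CT * X)
    (h : (m - ε / 4) * (X * R) ≤ (Real.pi + ε / 4) * R * S1 + M * (8 * R) * x + M * E) :
    (m - ε) * X ≤ (Real.pi + ε) * S := by
  have h1 : M * (8 * R) * x ≤ ε / 4 * X * R := by
    have h2 : M * (8 * R) * x ≤ M * (8 * R) * (c * X / I) := mul_le_mul_of_nonneg_left hx (by positivity)
    have h3 : 32 * M * c ≤ I * ε := by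
      rw [div_le_iff₀ hε] at hI
      exact hI
    have h4 : M * (8 * R) * (c * X / I) ≤ ε / 4 * X * R := by
      rw [show M * (8 * R) * (c * X / I) = (8 * M * c) * (X * R) / I by ring, div_le_iff₀ hI0]
      have h5 : 8 * M * c * (X * R) ≤ I * ε / 4 * (X * R) :=
        mul_le_mul_of_nonneg_right (by linarith) (by positivity)
      nlinarith
    exact h2.trans h4
  have h2 : M * E ≤ ε / 4 * X * R := by
    have h3 : M * E ≤ M * (CT * X) := mul_le_mul_of_nonneg_left hE (by linarith)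
    have h4 : 4 * M * CT ≤ R * ε := by
      rw [div_le_iff₀ hε] at hR0
      exact hR0
    have h5 : M * (CT * X) ≤ R * ε / 4 * X := by
      have := mul_le_mul_of_nonneg_right h4 hX
      nlinarith
    nlinarith
  have h3 : (m - ε / 4 - ε / 4 - ε / 4) * X * R ≤ (Real.pi + ε / 4) * S1 * R := by nlinarith
  have h4 : (m - ε / 4 - ε / 4 - ε / 4) * X ≤ (Real.pi + ε / 4) * S1 := le_of_mul_le_mul_right h3 hR
  have h5 : (Real.pi + ε / 4) * S1 ≤ (Real.pi + ε / 4) * S :=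
    mul_le_mul_of_nonneg_left hS (by have := Real.pi_pos; positivity)
  have h6 : (Real.pi + ε / 4) * S ≤ (Real.pi + ε) * S := mul_le_mul_of_nonneg_right (by linarith) hS0
  have h7 : (m - ε) * X ≤ (m - ε / 4 - ε / 4 - ε / 4) * X := mul_le_mul_of_nonneg_right (by linarith) hX
  linarith

theorem SLP7 (hSLD7 : SLD7_stmt) : SLP7_stmt := by
  classical
  intro hCND hTOT hSLU η₁ μ hη hAS
  obtain ⟨δ₁, hδ₁, h1⟩ := hSLD7 hCND η₁ μ hη hAS
  obtain ⟨δ₂, CT, κT, NT, hδ₂, hCT, hκT, hT⟩ := hTOT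
  obtain ⟨δ₃, hδ₃, hU⟩ := hSLU
  obtain ⟨K₁, κ₁, N₁, hK₁, hκ₁, hU⟩ := hU 1 one_pos
  refine ⟨min δ₁ (min δ₂ δ₃), lt_min hδ₁ (lt_min hδ₂ hδ₃), ?_⟩
  intro κ hκ hκ1
  obtain ⟨C', hC', h2⟩ := h1 κ hκ hκ1
  refine ⟨C', hC', ?_⟩
  intro w hw ε hε
  obtain ⟨A, hA, h3⟩ := h2 w hw (ε / 4) (by positivity)
  obtain ⟨M, hMdef⟩ : ∃ M : ℝ, M = MW w := ⟨_, rfl⟩
  have hM : 1 ≤ M := by rw [hMdef]; exact SMW.1 w
  have hc0 : 0 ≤ c0 := by
    unfold c0
    have h1 : (1 : ℝ) ≤ √2 := by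
      rw [Real.one_le_sqrt]; norm_num
    have h2 : 1 / √2 ≤ 1 := by
      rw [div_le_one (by linarith)]; exact h1
    have := Real.pi_pos
    have h3 : 0 ≤ 1 - 1 / √2 := by linarith
    positivity
  obtain ⟨R₀, hR₀⟩ : ∃ R₀ : ℝ, R₀ = 1 + 4 * M * CT / ε := ⟨_, rfl⟩
  have hR₀1 : 1 ≤ R₀ := by
    rw [hR₀]
    have : 0 ≤ 4 * M * CT / ε := by positivity
    linarith
  obtain ⟨I, hI⟩ := exists_nat_ge (32 * M * (c0 + 1) / ε + 1)
  have hI0 : (0 : ℝ) < I := by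
    have : 0 ≤ 32 * M * (c0 + 1) / ε := by positivity
    linarith
  have hIpos : 0 < I := by exact_mod_cast hI0
  obtain ⟨R, hR⟩ : ∃ R : ℕ → ℝ, ∀ i, R i = R₀ * (6 * A) ^ i := ⟨fun i => R₀ * (6 * A) ^ i, fun i => rfl⟩
  have h6A : 1 ≤ 6 * A := by linarith
  have hRR : ∀ i, R₀ ≤ R i := by
    intro i
    rw [hR i]
    exact le_mul_of_one_le_right (by linarith) (one_le_pow₀ h6A)
  have hR1 : ∀ i, 1 ≤ R i := fun i => hR₀1.trans (hRR i)
  have hRpos : ∀ i, 0 < R i := fun i => lt_of_lt_of_le one_pos (hR1 i)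
  have hRmono : ∀ i j, i ≤ j → R i ≤ R j := by
    intro i j hij
    rw [hR i, hR j]
    exact mul_le_mul_of_nonneg_left (pow_le_pow_right₀ h6A hij) (by linarith)
  have hRs : ∀ i, R (i + 1) = 6 * A * R i := by
    intro i
    rw [hR, hR, pow_succ]
    ring
  have h4 : ∀ i : ℕ, ∃ κi Ni : ℝ, 0 < κi ∧ ∀ N Y : ℝ, Ni ≤ N → N ^ (1 / 2 - δ₁) ≤ Y → Y ≤ κi * √N →
      (μ κ * (6 / Real.pi ^ 2) * (∏ p ∈ pr w, (1 - 1 / (p : ℝ) ^ 2)) - C' * (MW w / (w : ℝ) ^ (1 / 8 : ℝ)) - ε / 4) *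
        (Y * (R i * √N)) ≤
      (Real.pi + ε / 4) * R i * ∑ D ∈ DN N, ((cA D Y : ℝ) - (cE D Y (A * √N / R i) : ℝ)) +
      MW w * (8 * R i) * ∑ D ∈ DN N, ((cE D Y (A * √N / R i) : ℝ) - (cE D Y (√N / (6 * R i)) : ℝ)) +
      MW w * ∑ D ∈ DN N, (cE D Y (√N / (6 * R i)) : ℝ) := fun i => h3 (R i) (hR1 i)
  choose κf Nf hκf h5 using h4
  obtain ⟨κm, hκm, hκm'⟩ := SLP7_min κf hκf I
  obtain ⟨Nm, hNm⟩ := SLP7_max Nf I
  refine ⟨A / R I, min κm (min κT (min κ₁ (A / (K₁ * R I)))), max 1 (max Nm (max NT N₁)), ?_, ?_, ?_⟩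
  · have := hRpos I
    positivity
  · have := hRpos I
    have h0 : 0 < A / (K₁ * R I) := by positivity
    exact lt_min hκm (lt_min hκT (lt_min hκ₁ h0))
  intro N Y hN hY1 hY2
  have hN1 : 1 ≤ N := (le_max_left _ _).trans hN
  have hNm1 : Nm ≤ N := (le_max_left _ _).trans ((le_max_right _ _).trans hN)
  have hNT : NT ≤ N := (le_max_left _ _).trans ((le_max_right _ _).trans ((le_max_right _ _).trans hN))
  have hNN1 : N₁ ≤ N := (le_max_right _ _).trans ((le_max_right _ _).trans ((le_max_right _ _).trans hN))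
  have hsN : 0 < √N := Real.sqrt_pos.2 (by linarith)
  have hYd1 : N ^ (1 / 2 - δ₁) ≤ Y := (Real.rpow_le_rpow_of_exponent_le hN1 (by
    have := min_le_left δ₁ (min δ₂ δ₃); linarith)).trans hY1
  have hYd2 : N ^ (1 / 2 - δ₂) ≤ Y := (Real.rpow_le_rpow_of_exponent_le hN1 (by
    have := (min_le_right δ₁ (min δ₂ δ₃)).trans (min_le_left _ _); linarith)).trans hY1
  have hYd3 : N ^ (1 / 2 - δ₃) ≤ Y := (Real.rpow_le_rpow_of_exponent_le hN1 (by
    have := (min_le_right δ₁ (min δ₂ δ₃)).trans (min_le_right _ _); linarith)).trans hY1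
  have hYpos : 0 < Y := lt_of_lt_of_le (Real.rpow_pos_of_pos (by linarith) _) hY1
  have hk1 : Y ≤ κm * √N := hY2.trans (mul_le_mul_of_nonneg_right (min_le_left _ _) hsN.le)
  have hk2 : Y ≤ κT * √N := hY2.trans (mul_le_mul_of_nonneg_right
    ((min_le_right _ _).trans (min_le_left _ _)) hsN.le)
  have hk3 : Y ≤ κ₁ * √N := hY2.trans (mul_le_mul_of_nonneg_right
    ((min_le_right _ _).trans ((min_le_right _ _).trans (min_le_left _ _))) hsN.le)
  have hk4 : Y ≤ A / (K₁ * R I) * √N := hY2.trans (mul_le_mul_of_nonneg_right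
    ((min_le_right _ _).trans ((min_le_right _ _).trans (min_le_right _ _))) hsN.le)
  -- the scales
  have hsc : ∀ i, √N / (6 * R i) = A * √N / R (i + 1) := by
    intro i
    have h0 := hRpos i
    have hA0 : (0 : ℝ) < A := by linarith
    rw [hRs i]
    field_simp
  obtain ⟨X, hX⟩ : ∃ X : ℝ, X = Y * √N := ⟨_, rfl⟩
  have hX0 : 0 ≤ X := by rw [hX]; positivity
  have hU' := hU N Y hNN1 hYd3 hk3
  have hT' := hT N Y hNT hYd2 hk2
  rw [← hX] at hU' hT'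
  -- telescoping
  have htel : ∑ i ∈ range I, ∑ D ∈ DN N, ((cE D Y (A * √N / R i) : ℝ) - (cE D Y (√N / (6 * R i)) : ℝ)) ≤
      ∑ _i ∈ range I, (c0 + 1) * X / I := by
    rw [Finset.sum_comm, Finset.sum_const, Finset.card_range, nsmul_eq_mul]
    have e1 : (I : ℝ) * ((c0 + 1) * X / I) = (c0 + 1) * X := by
      field_simp
    rw [e1]
    refine le_trans ?_ hU'
    apply Finset.sum_le_sum
    intro D _
    have e2 : ∑ i ∈ range I, ((cE D Y (A * √N / R i) : ℝ) - (cE D Y (√N / (6 * R i)) : ℝ)) =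
        (cE D Y (A * √N / R 0) : ℝ) - (cE D Y (A * √N / R I) : ℝ) := by
      rw [← Finset.sum_range_sub' (fun i => (cE D Y (A * √N / R i) : ℝ)) I]
      apply Finset.sum_congr rfl
      intro i _
      rw [hsc i]
    rw [e2]
    have e3 := SLP7_le D Y (A * √N / R 0)
    have e4 : K₁ * Y ≤ A * √N / R I := by
      have h0 := hRpos I
      have hK0 : 0 < K₁ := by linarith
      calc K₁ * Y ≤ K₁ * (A / (K₁ * R I) * √N) := mul_le_mul_of_nonneg_left hk4 hK0.le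
        _ = A * √N / R I := by field_simp
    have e5 := SLP7_mono D Y e4
    linarith
  obtain ⟨i, hi, hix⟩ := Finset.exists_le_of_sum_le (Finset.nonempty_range_iff.2 hIpos.ne') htel
  have hiI : i < I := Finset.mem_range.1 hi
  have h6 := h5 i N Y ((hNm i hiI).trans hNm1) hYd1 (hk1.trans (mul_le_mul_of_nonneg_right (hκm' i hiI) hsN.le))
  -- comparison of the sums
  have hS : ∑ D ∈ DN N, ((cA D Y : ℝ) - (cE D Y (A * √N / R i) : ℝ)) ≤
      ∑ D ∈ DN N, ((cA D Y : ℝ) - (cE D Y (A / R I * √N) : ℝ)) := by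
    apply Finset.sum_le_sum
    intro D _
    have e1 : A / R I * √N ≤ A * √N / R i := by
      rw [div_mul_eq_mul_div]
      exact div_le_div_of_nonneg_left (by positivity) (hRpos i) (hRmono i I hiI.le)
    have e2 := SLP7_mono D Y e1
    linarith
  have hS0 : 0 ≤ ∑ D ∈ DN N, ((cA D Y : ℝ) - (cE D Y (A / R I * √N) : ℝ)) := by
    apply Finset.sum_nonneg
    intro D _
    have := SLP7_le D Y (A / R I * √N)
    linarith
  have hE : ∑ D ∈ DN N, (cE D Y (√N / (6 * R i)) : ℝ) ≤ CT * X := by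
    refine le_trans ?_ hT'
    apply Finset.sum_le_sum
    intro D _
    exact SLP7_le D Y _
  rw [← hMdef] at h6 ⊢
  rw [← hX]
  have h7 : Y * (R i * √N) = X * R i := by rw [hX]; ring
  rw [h7] at h6
  refine SLP7_alg _ X (R i) ε M CT (c0 + 1) _ _ _ _ (I : ℝ) hX0 (hRpos i) hε hM ?_ ?_ hI0 hS hS0 hix hE h6
  · have := hRR i
    rw [hR₀] at this
    linarith
  · linarith

end Pool.Agent.T7
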