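import Pool.Agent.helper85.T7.SpecS

set_option autoImplicit false

/-! Row t7:SUB7: injection for `gcd = 1`, at the scale `Y₂` (port of T5, row SUB, helper24). -/

namespace Pool.Agent.T7

open Finset NumberField Pool.Agent.helper3.FT Pool.Agent.helper47.RA Pool.Agent.T5 Pool.Agent.T6

theorem SUB7_cen {K : Type} [Field K] [NumberField K] (Q : QF K)
    (a : Ideal (𝓞 K)) (α γ : 𝓞 K) (t : Tpl) (κ N Y Y₂ : ℝ) (hN : 0 < N) (hY : 0 < Y) (hY₂ : 0 < Y₂)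
    (hD : Q.D < 0) (hD1 : N / 2 < -(Q.D : ℝ)) (hD2 : -(Q.D : ℝ) ≤ N)
    (A : Adm Q a α γ) (T : TupOf Q a α γ 1 t) (ha : a ∈ IA K Y)
    (hα : α ∈ AL Q a (Y₂ * √(-(Q.D : ℝ)) / √N)) (hG : GoodR Q κ Y₂ a α γ) :
    Cen κ N Y Y₂ t := by
  have h := (ACEN K Q hD a α γ 1 t A T le_rfl κ N Y Y₂ hN hY hY₂).2
  have e1 : N * ((1 : ℕ) : ℝ) ^ 2 = N := by norm_num
  rw [e1] at h
  exact h ⟨ha.2.2.2.2.1, ha.2.2.2.2.2, hD1, hD2, hα.2.2, hG⟩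

theorem SUB7_one {K : Type} [Field K] [NumberField K]
    (Q : QF K) (hfin : Module.finrank ℚ K = 2) (hD : Q.D < -4) (κ N Y Y₂ : ℝ) (hN : 0 < N)
    (hY : 0 < Y) (hY₂ : 0 < Y₂) (hD1 : N / 2 < -(Q.D : ℝ)) (hD2 : -(Q.D : ℝ) ≤ N) (w : ℕ) (F : Finset Tpl)
    (hF : ∀ t, Cen κ N Y Y₂ t → t ∈ F) :
    (∑ᶠ x ∈ GG7 Q κ N Y Y₂ 1, wt Q w x.1 x.2) ≤ ∑ t ∈ F.filter (fun t => dis t = Q.D), fw w t := by
  classical
  obtain ⟨φ, hφ1, hφ2, -⟩ := all_ALG K Q hfin hD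
  have key : ∀ x ∈ GG7 Q κ N Y Y₂ 1, ∃ γ, Adm Q x.1 x.2 γ ∧ gd Q x.2 γ = 1 ∧
      TupOf Q x.1 x.2 γ 1 (φ x.1 x.2) ∧ Cen κ N Y Y₂ (φ x.1 x.2) := by
    rintro x ⟨ha, hα, γ, A, hG, hg⟩
    have T := hφ1 x.1 x.2 γ A
    rw [hg] at T
    exact ⟨γ, A, hg, T, SUB7_cen Q x.1 x.2 γ _ κ N Y Y₂ hN hY hY₂ (by omega) hD1 hD2 A T ha hα hG⟩
  have hmaps : Set.MapsTo (fun x : Ideal (𝓞 K) × 𝓞 K => φ x.1 x.2) (GG7 Q κ N Y Y₂ 1)
      ((F.filter (fun t => dis t = Q.D) : Finset Tpl) : Set Tpl) := by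
    intro x hx
    obtain ⟨γ, A, hg, T, hC⟩ := key x hx
    have hd := T.D
    simp only [Nat.cast_one, one_pow, mul_one] at hd
    exact Finset.mem_coe.2 (Finset.mem_filter.2 ⟨hF _ hC, hd⟩)
  have hinj : Set.InjOn (fun x : Ideal (𝓞 K) × 𝓞 K => φ x.1 x.2) (GG7 Q κ N Y Y₂ 1) := by
    intro x hx y hy hxy
    obtain ⟨γ, A, hg, T, hC⟩ := key x hx
    obtain ⟨γ', A', hg', T', hC'⟩ := key y hy
    have h := hφ2 x.1 x.2 γ y.1 y.2 γ' A A' (hg.trans hg'.symm) hxy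
    exact Prod.ext h.1 h.2
  have hfinite : (GG7 Q κ N Y Y₂ 1).Finite :=
    Set.Finite.of_injOn hmaps hinj (Finset.finite_toSet _)
  rw [finsum_mem_eq_finite_toFinset_sum _ hfinite]
  have hsum : ∑ x ∈ hfinite.toFinset, wt Q w x.1 x.2 =
      ∑ x ∈ hfinite.toFinset, fw w (φ x.1 x.2) := by
    refine Finset.sum_congr rfl ?_
    intro x hx
    obtain ⟨γ, A, hg, T, hC⟩ := key x (hfinite.mem_toFinset.1 hx)
    exact (SUB_wt Q x.1 x.2 γ w _ T).symm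
  rw [hsum]
  have himg : ∑ x ∈ hfinite.toFinset, fw w (φ x.1 x.2) =
      ∑ t ∈ hfinite.toFinset.image (fun x : Ideal (𝓞 K) × 𝓞 K => φ x.1 x.2), fw w t := by
    rw [Finset.sum_image]
    intro x hx y hy hxy
    exact hinj (hfinite.mem_toFinset.1 hx) (hfinite.mem_toFinset.1 hy) hxy
  rw [himg]
  refine Finset.sum_le_sum_of_subset_of_nonneg ?_ ?_
  · intro t ht
    obtain ⟨x, hx, rfl⟩ := Finset.mem_image.1 ht
    exact Finset.mem_coe.1 (hmaps (hfinite.mem_toFinset.1 hx))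
  · intro t _ _
    exact (SMW.2.2.1 w t).1

/-- **SUB7**. -/
theorem SUB7 : SUB7_stmt := by
  classical
  intro κ N Y Y₂ hκ hN hY hY₂ w F hF
  have hN0 : 0 < N := by linarith
  have h1 : ∀ D ∈ DN N, SF (fun _ E => ∑ᶠ x ∈ GG7 E.Q κ N Y Y₂ 1, wt E.Q w x.1 x.2) D ≤
      ∑ t ∈ F.filter (fun t => dis t = D), fw w t := by
    intro D hD
    unfold DN at hD
    rw [Finset.mem_filter, Finset.mem_Icc] at hD
    obtain ⟨⟨hD1, hD2⟩, hfund, hD3⟩ := hD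
    have hle : -(D : ℝ) ≤ N := by
      have h : ((-D : ℤ) : ℝ) ≤ N := by
        refine le_trans ?_ (Int.floor_le N)
        exact_mod_cast (by omega : -D ≤ ⌊N⌋)
      simpa using h
    have hlt : D < -4 := by
      have h : (D : ℝ) < -4 := by linarith
      exact_mod_cast h
    have hne : Nonempty (Fld D) := SFA.2.2 D hfund (by omega)
    unfold SF
    rw [dif_pos hne]
    have hE := hne.some.hD
    have h := SUB7_one hne.some.Q hne.some.fin (by rw [hE]; exact hlt) κ N Y Y₂ hN0 hY hY₂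
      (by rw [hE]; exact hD3) (by rw [hE]; exact hle) w F hF
    rw [hE] at h
    exact h
  calc ∑ D ∈ DN N, SF (fun _ E => ∑ᶠ x ∈ GG7 E.Q κ N Y Y₂ 1, wt E.Q w x.1 x.2) D
      ≤ ∑ D ∈ DN N, ∑ t ∈ F.filter (fun t => dis t = D), fw w t := Finset.sum_le_sum h1
    _ = ∑ t ∈ F.filter (fun t => dis t ∈ DN N), fw w t :=
        Finset.sum_fiberwise_eq_sum_filter F (DN N) dis (fw w)
    _ ≤ ∑ t ∈ F, fw w t :=
        Finset.sum_le_sum_of_subset_of_nonneg (Finset.filter_subset _ _)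
          (fun t _ _ => (SMW.2.2.1 w t).1)

end Pool.Agent.T7
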