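import Pool.Agent.helper85.T7.LG7
import Pool.Agent.helper85.T7.LA7
import Pool.Agent.helper85.T7.LB7
import Pool.Agent.helper8.T7.LC7
import Pool.Agent.helper85.T7.LE7
import Pool.Agent.helper85.T7.MW7
import Pool.Agent.helper65.T7.GT7
import Pool.Agent.helper89.T7.SUA7
import Pool.Agent.helper85.T7.SUB7
import Pool.Agent.helper79.T7.SUC7
import Pool.Agent.helper78.T7.SUE7
import Pool.Agent.helper4.T7.SLU7R
import Pool.Agent.helper44.T7.SLA7
import Pool.Agent.helper29.T7.SLB7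
import Pool.Agent.helper85.T7.SLD7
import Pool.Agent.helper85.T7.SLP7
import Pool.Agent.helper4.T7.SLL7R
import Pool.Agent.helper4.T7.AllT
import Pool.Agent.helper82.T6.All

set_option autoImplicit false

/-! # T7: the slices (blocks L7, S7) -/

namespace Pool.Agent.T7

open Pool.Agent.T5 Pool.Agent.T6

/-- the bound for the tuples with a discriminant divisible by `d ^ 2` -/
theorem allTD1s : TD1_stmt := allTD1 allWG allLOCA allLOCB

/-- **SLU7** -/
theorem allSLU7 : SLU7_stmt :=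
  SLU7R (SUE7 (SUA7 LA7 LB7 (LC7 LG7)) SUB7 (SUC7 GT7)) MW7 allTD1s allTAS7

/-- **SLL7** -/
theorem SLL7_of (hCND : CND7_stmt) (hTOT : TOT7_stmt) : SLL7_stmt :=
  SLL7R (SLP7 (SLD7 (SLA7 LA7 LE7) SLB7)) MW7 hCND allTAS7 hTOT allSLU7

end Pool.Agent.T7
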