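import Pool.Agent.helper85.T7.SpecS

set_option autoImplicit false

/-! Row t7:LG7: few elements of one ideal have a large greatest common divisor. -/

namespace Pool.Agent.T7

open Finset NumberField Pool.Agent.helper3.FT Pool.Agent.helper47.RA Pool.Agent.T5 Pool.Agent.T6

/-- the size of the coordinates -/
theorem LG7_coord {K : Type} [Field K] [NumberField K] (Q : QF K) (hD : Q.D < 0) (a : Ideal (𝓞 K)) (ha : a ≠ ⊥)
    (e₁ e₂ : 𝓞 K) (hRB : Pool.Agent.helper26.T5.RB Q (a ^ 2) e₁ e₂) (x j : ℤ) (B : ℝ) (hB : 0 ≤ B)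
    (hv : (Q.v₁ ((x : 𝓞 K) * e₁ + j * e₂)) ^ 2 ≤ (Ideal.absNorm a : ℝ) ^ 2 * (B * √(-(Q.D : ℝ)))) :
    (j : ℝ) ^ 2 ≤ 4 * B ∧ |(j : ℝ)| * |(x : ℝ)| ≤ 4 * B := by
  obtain ⟨E, E1, E2, E3, E4, E5⟩ := Pool.Agent.helper26.T5.lemb K Q hD
  have hZ : 0 < Ideal.absNorm a := Nat.pos_of_ne_zero fun h => ha (Ideal.absNorm_eq_zero_iff.1 h)
  obtain ⟨Z, hZdef⟩ : ∃ Z : ℝ, Z = (Ideal.absNorm a : ℝ) := ⟨_, rfl⟩
  have hZR : 0 < Z := by rw [hZdef]; exact_mod_cast hZ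
  have hDr : 0 < -(Q.D : ℝ) := by
    have : (Q.D : ℝ) < 0 := by exact_mod_cast hD
    linarith
  have habs : |(Q.D : ℝ)| = -(Q.D : ℝ) := abs_of_neg (by linarith)
  obtain ⟨s, hs⟩ : ∃ s : ℝ, s = √(-(Q.D : ℝ)) := ⟨_, rfl⟩
  have hs0 : 0 < s := by rw [hs]; exact Real.sqrt_pos.2 hDr
  rw [← hs, ← hZdef] at hv
  obtain ⟨α, hα⟩ : ∃ α : 𝓞 K, α = (x : 𝓞 K) * e₁ + j * e₂ := ⟨_, rfl⟩
  rw [← hα] at hv
  have him : ∀ z : 𝓞 K, ∀ y : 𝓞 K, |(Q.Y (Q.cj y * z) : ℝ)| * (s / 2) ≤ Q.v₁ y * Q.v₁ z := by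
    intro z y
    have e1 : |(E (Q.cj y * z)).im| ≤ ‖E (Q.cj y * z)‖ := Complex.abs_im_le_norm _
    rw [E2, habs, ← hs, abs_mul, abs_of_pos (half_pos hs0), map_mul, norm_mul, E3, Complex.norm_conj, E1, E1] at e1
    exact e1
  have hdet : |(Q.Y (Q.cj e₁ * e₂) : ℝ)| = Z ^ 2 := by
    have h1 := hRB.det
    rw [map_pow] at h1
    have h2 : ((|Q.Y (Q.cj e₁ * e₂)| : ℤ) : ℝ) = (((Ideal.absNorm a ^ 2 : ℕ) : ℤ) : ℝ) := by rw [h1]
    push_cast at h2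
    rw [hZdef]
    exact h2
  have hy1 : |(Q.Y (Q.cj e₁ * α) : ℝ)| = |(j : ℝ)| * Z ^ 2 := by
    have h1 : Q.cj e₁ * α = (x : 𝓞 K) * (Q.cj e₁ * e₁) + (j : 𝓞 K) * (Q.cj e₁ * e₂) := by rw [hα]; ring
    rw [h1, Q.Y_add, Q.Y_int_mul, Q.Y_int_mul, HBAD_self]
    push_cast
    rw [mul_zero, zero_add, abs_mul, hdet]
  have hy2 : |(Q.Y (Q.cj e₂ * α) : ℝ)| = |(x : ℝ)| * Z ^ 2 := by
    have h1 : Q.cj e₂ * α = (x : 𝓞 K) * (Q.cj e₂ * e₁) + (j : 𝓞 K) * (Q.cj e₂ * e₂) := by rw [hα]; ring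
    rw [h1, Q.Y_add, Q.Y_int_mul, Q.Y_int_mul, HBAD_self, HBAD_swap Q e₁ e₂]
    push_cast
    rw [mul_zero, add_zero, abs_mul, abs_neg, hdet]
  have k1 := him α e₁
  have k2 := him α e₂
  rw [hy1] at k1
  rw [hy2] at k2
  have n1 : 0 ≤ Q.v₁ e₁ := Q.v₁_nonneg _
  have n2 : 0 ≤ Q.v₁ e₂ := Q.v₁_nonneg _
  have n3 : 0 ≤ Q.v₁ α := Q.v₁_nonneg _
  have hred : Q.v₁ e₁ * Q.v₁ e₂ ≤ s * Z ^ 2 := by
    have h1 := hRB.red
    rw [map_pow, habs, ← hs] at h1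
    push_cast at h1
    rw [hZdef]
    exact h1
  have hred1 : Q.v₁ e₁ * Q.v₁ e₁ ≤ s * Z ^ 2 :=
    (mul_le_mul_of_nonneg_left hRB.le n1).trans hred
  have hZ4 : 0 < Z ^ 4 * s ^ 2 := by positivity
  constructor
  · have h1 : (|(j : ℝ)| * Z ^ 2 * (s / 2)) * (|(j : ℝ)| * Z ^ 2 * (s / 2)) ≤
        (Q.v₁ e₁ * Q.v₁ α) * (Q.v₁ e₁ * Q.v₁ α) := mul_le_mul k1 k1 (by positivity) (by positivity)
    have h2 : (Q.v₁ e₁ * Q.v₁ α) * (Q.v₁ e₁ * Q.v₁ α) ≤ (s * Z ^ 2) * (Z ^ 2 * (B * s)) := by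
      calc (Q.v₁ e₁ * Q.v₁ α) * (Q.v₁ e₁ * Q.v₁ α) = (Q.v₁ e₁ * Q.v₁ e₁) * (Q.v₁ α) ^ 2 := by ring
        _ ≤ _ := mul_le_mul hred1 hv (by positivity) (by positivity)
    have h3 : (j : ℝ) ^ 2 * (Z ^ 4 * s ^ 2) ≤ 4 * B * (Z ^ 4 * s ^ 2) := by
      have h4 : |(j : ℝ)| * |(j : ℝ)| = (j : ℝ) ^ 2 := by rw [abs_mul_abs_self]; ring
      calc (j : ℝ) ^ 2 * (Z ^ 4 * s ^ 2) = 4 * ((|(j : ℝ)| * Z ^ 2 * (s / 2)) * (|(j : ℝ)| * Z ^ 2 * (s / 2))) := by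
            rw [← h4]; ring
        _ ≤ 4 * ((s * Z ^ 2) * (Z ^ 2 * (B * s))) := by linarith
        _ = _ := by ring
    exact le_of_mul_le_mul_right h3 hZ4
  · have h1 : (|(j : ℝ)| * Z ^ 2 * (s / 2)) * (|(x : ℝ)| * Z ^ 2 * (s / 2)) ≤
        (Q.v₁ e₁ * Q.v₁ α) * (Q.v₁ e₂ * Q.v₁ α) := mul_le_mul k1 k2 (by positivity) (by positivity)
    have h2 : (Q.v₁ e₁ * Q.v₁ α) * (Q.v₁ e₂ * Q.v₁ α) ≤ (s * Z ^ 2) * (Z ^ 2 * (B * s)) := by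
      calc (Q.v₁ e₁ * Q.v₁ α) * (Q.v₁ e₂ * Q.v₁ α) = (Q.v₁ e₁ * Q.v₁ e₂) * (Q.v₁ α) ^ 2 := by ring
        _ ≤ _ := mul_le_mul hred hv (by positivity) (by positivity)
    have h3 : |(j : ℝ)| * |(x : ℝ)| * (Z ^ 4 * s ^ 2) ≤ 4 * B * (Z ^ 4 * s ^ 2) := by
      calc |(j : ℝ)| * |(x : ℝ)| * (Z ^ 4 * s ^ 2) =
            4 * ((|(j : ℝ)| * Z ^ 2 * (s / 2)) * (|(x : ℝ)| * Z ^ 2 * (s / 2))) := by ring
        _ ≤ 4 * ((s * Z ^ 2) * (Z ^ 2 * (B * s))) := by linarith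
        _ = _ := by ring
    exact le_of_mul_le_mul_right h3 hZ4

/-- the numerical contradiction -/
theorem LG7_num (η δ N B Yt : ℝ) (K₀ : ℕ) (hη : 0 < η) (hK : 2 / η ≤ K₀) (hK1 : 1 ≤ K₀)
    (hδ : δ = 1 / (2 * (K₀ : ℝ) ^ 2)) (hN : 1 ≤ N) (hN2 : (16 : ℝ) ^ (2 * K₀ ^ 2) < N) (hB0 : 0 ≤ B) (hB : B ≤ N ^ δ)
    (hY : Yt ≤ N) (hY0 : 0 ≤ Yt) (h : (N ^ η) ^ K₀ ≤ Yt * (2 * (8 * B)) ^ (K₀ ^ 2)) : False := by
  have hN0 : 0 < N := by linarith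
  have hKR : (1 : ℝ) ≤ K₀ := by exact_mod_cast hK1
  have h1 : N ^ (2 : ℝ) ≤ (N ^ η) ^ K₀ := by
    rw [← Real.rpow_natCast (N ^ η), ← Real.rpow_mul hN0.le]
    apply Real.rpow_le_rpow_of_exponent_le hN
    rw [div_le_iff₀ hη] at hK
    linarith
  have h2 : (2 * (8 * B)) ^ (K₀ ^ 2) ≤ (16 : ℝ) ^ (K₀ ^ 2) * √N := by
    have e1 : 2 * (8 * B) = 16 * B := by ring
    rw [e1, mul_pow]
    apply mul_le_mul_of_nonneg_left _ (by positivity)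
    calc B ^ (K₀ ^ 2) ≤ (N ^ δ) ^ (K₀ ^ 2) := pow_le_pow_left₀ hB0 hB _
      _ = √N := by
        rw [← Real.rpow_natCast (N ^ δ), ← Real.rpow_mul hN0.le, Real.sqrt_eq_rpow]
        congr 1
        rw [hδ]
        push_cast
        field_simp
  have h3 : N ^ (2 : ℝ) ≤ N * ((16 : ℝ) ^ (K₀ ^ 2) * √N) := by
    refine (h1.trans h).trans ?_
    exact mul_le_mul hY h2 (by positivity) hN0.le
  have hsN : 0 < √N := Real.sqrt_pos.2 hN0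
  have h4 : N ^ (2 : ℝ) = N * (√N * √N) := by
    rw [Real.mul_self_sqrt hN0.le, show (2 : ℝ) = ((2 : ℕ) : ℝ) by norm_num, Real.rpow_natCast]
    ring
  rw [h4] at h3
  have h5 : √N * √N ≤ (16 : ℝ) ^ (K₀ ^ 2) * √N := le_of_mul_le_mul_left h3 hN0
  have h6 : √N ≤ (16 : ℝ) ^ (K₀ ^ 2) := le_of_mul_le_mul_right h5 hsN
  have h7 : N ≤ (16 : ℝ) ^ (2 * K₀ ^ 2) := by
    calc N = √N ^ 2 := (Real.sq_sqrt hN0.le).symm
      _ ≤ ((16 : ℝ) ^ (K₀ ^ 2)) ^ 2 := pow_le_pow_left₀ hsN.le h6 2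
      _ = _ := by rw [← pow_mul, mul_comm]
  linarith

open Classical in
theorem LG7 : LG7_stmt := by
  intro η hη
  obtain ⟨K₀, hK₀⟩ := exists_nat_ge (2 / η + 1)
  have hK2 : 2 / η ≤ K₀ := by linarith
  have hK1' : (1 : ℝ) ≤ K₀ := by
    have : 0 < 2 / η := by positivity
    linarith
  have hK1 : 1 ≤ K₀ := by exact_mod_cast hK1'
  obtain ⟨δ, hδ⟩ : ∃ δ : ℝ, δ = 1 / (2 * (K₀ : ℝ) ^ 2) := ⟨_, rfl⟩
  have hδ0 : 0 < δ := by rw [hδ]; positivity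
  refine ⟨δ, 4 * K₀ + 1, max 64 ((16 : ℝ) ^ (2 * K₀ ^ 2) + 1), hδ0, by linarith, ?_⟩
  intro K _ _ Q N Y Y₂ a hN hD1 hD2 hY hY1 hY2 ha F hF
  have hN64 : 64 ≤ N := (le_max_left _ _).trans hN
  have hN16 : (16 : ℝ) ^ (2 * K₀ ^ 2) < N := by
    have := (le_max_right _ _).trans hN
    linarith
  have hN0 : 0 < N := by linarith
  have hN1 : 1 ≤ N := by linarith
  have hsN : 0 < √N := Real.sqrt_pos.2 hN0
  obtain ⟨hne, hPrim, hpr, hnp, hZ1, hZ2⟩ := ha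
  have hDr : (Q.D : ℝ) < -4 := by linarith
  have hDZ : Q.D < -4 := by exact_mod_cast hDr
  have hD0 : Q.D < 0 := by omega
  have hDp : 0 < -(Q.D : ℝ) := by linarith
  obtain ⟨B, hB⟩ : ∃ B : ℝ, B = Y₂ / √N := ⟨_, rfl⟩
  have hB1 : 1 ≤ B := by
    rw [hB, le_div_iff₀ hsN]
    linarith
  have hB0 : 0 < B := by linarith
  have hBδ : B ≤ N ^ δ := by
    rw [hB, div_le_iff₀ hsN, Real.sqrt_eq_rpow, ← Real.rpow_add hN0, add_comm]
    exact hY2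
  have hT : Y₂ * √(-(Q.D : ℝ)) / √N = B * √(-(Q.D : ℝ)) := by rw [hB]; ring
  rw [hT] at hF
  rw [← hB]
  -- the generator
  obtain ⟨θ, hθ⟩ := hpr
  have hθs : Ideal.span {θ} = a ^ 5 := hθ.symm
  obtain ⟨hy0, hysz, -⟩ := Pool.Agent.helper26.T5.AllL.aLYT K Q a θ hDZ hne hθs hnp
  have hYt : |(Q.Y θ : ℝ)| ≤ N := by
    have habs : |(Q.D : ℝ)| = -(Q.D : ℝ) := abs_of_neg (by linarith)
    rw [habs] at hysz
    have hZs : (Ideal.absNorm a : ℝ) ≤ √N := hZ2.trans hY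
    have h1 : (Ideal.absNorm a : ℝ) ^ 5 ≤ √N ^ 5 := pow_le_pow_left₀ (Nat.cast_nonneg _) hZs 5
    have h2 : √N ^ 5 = N ^ 2 * √N := by
      have : √N ^ 2 = N := Real.sq_sqrt hN0.le
      calc √N ^ 5 = (√N ^ 2) ^ 2 * √N := by ring
        _ = _ := by rw [this]
    have h3 : √N ≤ N / 8 := by
      have h8 : 8 ≤ √N := by
        apply Real.le_sqrt_of_sq_le
        linarith
      have : √N * √N = N := Real.mul_self_sqrt hN0.le
      nlinarith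
    have h4 : (Q.Y θ : ℝ) ^ 2 * (N / 2) ≤ N ^ 3 / 2 := by
      calc (Q.Y θ : ℝ) ^ 2 * (N / 2) ≤ (Q.Y θ : ℝ) ^ 2 * -(Q.D : ℝ) :=
            mul_le_mul_of_nonneg_left hD1.le (sq_nonneg _)
        _ ≤ 4 * (Ideal.absNorm a : ℝ) ^ 5 := hysz
        _ ≤ 4 * (N ^ 2 * √N) := by rw [← h2]; linarith
        _ ≤ 4 * (N ^ 2 * (N / 8)) := by
            have := mul_le_mul_of_nonneg_left h3 (by positivity : 0 ≤ N ^ 2)
            linarith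
        _ = N ^ 3 / 2 := by ring
    have h5 : (Q.Y θ : ℝ) ^ 2 ≤ N ^ 2 := by
      have h6 : (Q.Y θ : ℝ) ^ 2 * (N / 2) ≤ N ^ 2 * (N / 2) := by
        refine h4.trans (le_of_eq ?_)
        ring
      exact le_of_mul_le_mul_right h6 (by linarith)
    exact abs_le_of_sq_le_sq h5 hN0.le
  -- the basis
  obtain ⟨e₁, e₂, hRB⟩ := Pool.Agent.helper26.T5.AllL.aLBB K Q (a ^ 2) hD0 (pow_ne_zero 2 hne)
  have hsp : ∀ α ∈ F, ∃ p : ℤ × ℤ, α = (p.1 : 𝓞 K) * e₁ + p.2 * e₂ := by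
    intro α hα
    obtain ⟨x, y, h⟩ := hRB.sp α (hF α hα).1.1
    exact ⟨(x, y), h⟩
  choose! c hc using hsp
  have hco : ∀ α ∈ F, ((c α).2 : ℝ) ^ 2 ≤ 4 * B ∧ |((c α).2 : ℝ)| * |((c α).1 : ℝ)| ≤ 4 * B := by
    intro α hα
    apply LG7_coord Q hD0 a hne e₁ e₂ hRB _ _ B hB0.le
    rw [← hc α hα]
    exact (hF α hα).1.2.2
  have hinj : ∀ α ∈ F, ∀ β ∈ F, c α = c β → α = β := by
    intro α hα β hβ h
    rw [hc α hα, hc β hβ, h]
  -- j = 0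
  have h0 : (F.filter (fun α => (c α).2 = 0)).card ≤ 1 := by
    rw [Finset.card_le_one]
    have hone : ∀ α ∈ F.filter (fun α => (c α).2 = 0), α = ((c α).1 : 𝓞 K) * e₁ ∧ (c α).1.natAbs = 1 := by
      intro α hα
      rw [Finset.mem_filter] at hα
      have h1 := hc α hα.1
      rw [hα.2] at h1
      push_cast at h1
      rw [zero_mul, add_zero] at h1
      refine ⟨h1, ?_⟩
      by_contra hne1
      obtain ⟨p, hp, hpx⟩ := Nat.exists_prime_and_dvd hne1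
      obtain ⟨x', hx'⟩ := Int.natCast_dvd.2 hpx
      obtain ⟨-, γ, hA, -⟩ := hF α hα.1
      apply hA.pL p hp
      rw [Ideal.dvd_iff_le, Ideal.span_singleton_le_iff_mem]
      have h2 : α = (p : 𝓞 K) * ((x' : 𝓞 K) * e₁) := by
        rw [h1, hx']
        push_cast
        ring
      rw [h2]
      exact Ideal.mul_mem_mul (Ideal.mem_span_singleton_self _) (Ideal.mul_mem_left _ _ hRB.m1)
    intro α hα β hβ
    obtain ⟨a1, a2⟩ := hone α hα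
    obtain ⟨b1, b2⟩ := hone β hβ
    have hYα := (hF α (Finset.mem_filter.1 hα).1).1.2.1
    have hYβ := (hF β (Finset.mem_filter.1 hβ).1).1.2.1
    have ya : Q.Y α = (c α).1 * Q.Y e₁ := by
      have h := congrArg Q.Y a1
      rwa [Q.Y_int_mul] at h
    have yb : Q.Y β = (c β).1 * Q.Y e₁ := by
      have h := congrArg Q.Y b1
      rwa [Q.Y_int_mul] at h
    have hcc : (c α).1 = (c β).1 := by
      rcases Int.natAbs_eq_iff.1 a2 with ha' | ha' <;> rcases Int.natAbs_eq_iff.1 b2 with hb' | hb'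
      · rw [ha', hb']
      · rw [ha'] at ya
        rw [hb'] at yb
        push_cast at ya yb
        omega
      · rw [ha'] at ya
        rw [hb'] at yb
        push_cast at ya yb
        omega
      · rw [ha', hb']
    rw [a1, b1, hcc]
  -- j ≠ 0
  obtain ⟨M, hM⟩ : ∃ M : ℕ, M = ⌊2 * √B⌋₊ := ⟨_, rfl⟩
  have hMB : (M : ℝ) ≤ 2 * √B := by rw [hM]; exact Nat.floor_le (by positivity)
  have hfib : ∀ j ∈ (Icc (-(M : ℤ)) M).erase 0, ((F.filter (fun α => (c α).2 ≠ 0)).filter (fun α => (c α).2 = j)).card ≤ K₀ := by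
    intro j hj
    have hj0 : j ≠ 0 := (Finset.mem_erase.1 hj).1
    by_contra hcon
    push Not at hcon
    obtain ⟨S₀, hS₀, hcard⟩ := Finset.exists_subset_card_eq hcon.le
    have hS₀F : ∀ α ∈ S₀, α ∈ F ∧ (c α).2 = j := by
      intro α hα
      have := hS₀ hα
      rw [Finset.mem_filter, Finset.mem_filter] at this
      exact ⟨this.1.1, this.2⟩
    have hinjS : Set.InjOn (fun α => (c α).1) (S₀ : Set (𝓞 K)) := by
      intro α hα β hβ h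
      obtain ⟨h1, h2⟩ := hS₀F α (Finset.mem_coe.1 hα)
      obtain ⟨h3, h4⟩ := hS₀F β (Finset.mem_coe.1 hβ)
      exact hinj α h1 β h3 (Prod.ext h (by rw [h2, h4]))
    have hcS : (S₀.image (fun α => (c α).1)).card = K₀ := by
      rw [Finset.card_image_of_injOn hinjS, hcard]
    have key := HBAD HGC HLC K Q hDZ a θ e₁ e₂ hne hnp hθs hRB j (S₀.image (fun α => (c α).1)) (N ^ η) (8 * B) hj0
      (Real.one_le_rpow hN1 hη.le) (by linarith) ?_ ?_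
    · rw [hcS] at key
      exact LG7_num η δ N B _ K₀ hη hK2 hK1 hδ hN1 hN16 hB0.le hBδ hYt (abs_nonneg _) key
    · intro x hx
      obtain ⟨α, hα, rfl⟩ := Finset.mem_image.1 hx
      obtain ⟨h1, h2⟩ := hS₀F α hα
      obtain ⟨-, γ, hA, hg⟩ := hF α h1
      have h3 := hc α h1
      rw [h2] at h3
      exact ⟨γ, by rw [← h3]; exact hA, by rw [← h3]; exact hg⟩
    · intro x hx x' hx'
      obtain ⟨α, hα, rfl⟩ := Finset.mem_image.1 hx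
      obtain ⟨β, hβ, rfl⟩ := Finset.mem_image.1 hx'
      obtain ⟨h1, h2⟩ := hS₀F α hα
      obtain ⟨h3, h4⟩ := hS₀F β hβ
      have g1 := (hco α h1).2
      have g2 := (hco β h3).2
      rw [h2] at g1
      rw [h4] at g2
      rw [abs_mul]
      calc |(j : ℝ)| * |((c α).1 : ℝ) - ((c β).1 : ℝ)| ≤ |(j : ℝ)| * (|((c α).1 : ℝ)| + |((c β).1 : ℝ)|) :=
            mul_le_mul_of_nonneg_left (abs_sub _ _) (abs_nonneg _)
        _ = |(j : ℝ)| * |((c α).1 : ℝ)| + |(j : ℝ)| * |((c β).1 : ℝ)| := by ring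
        _ ≤ 8 * B := by linarith
  have hmaps : ∀ α ∈ F.filter (fun α => (c α).2 ≠ 0), (c α).2 ∈ (Icc (-(M : ℤ)) M).erase 0 := by
    intro α hα
    rw [Finset.mem_filter] at hα
    rw [Finset.mem_erase, Finset.mem_Icc]
    refine ⟨hα.2, ?_⟩
    have h1 := (hco α hα.1).1
    have h2 : |((c α).2 : ℝ)| ≤ 2 * √B := by
      apply abs_le_of_sq_le_sq _ (by positivity)
      rw [mul_pow, Real.sq_sqrt hB0.le]
      linarith
    have h3 : (((c α).2.natAbs : ℕ) : ℝ) ≤ 2 * √B := by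
      rw [Nat.cast_natAbs]
      push_cast
      exact h2
    have h4 : (c α).2.natAbs ≤ M := by rw [hM]; exact Nat.le_floor h3
    omega
  have hcardJ : ((Icc (-(M : ℤ)) M).erase 0).card = 2 * M := by
    rw [Finset.card_erase_of_mem (by rw [Finset.mem_Icc]; omega), Int.card_Icc]
    omega
  have h1 := Finset.card_le_mul_card_image_of_maps_to hmaps K₀ hfib
  rw [hcardJ] at h1
  have hsplit := Finset.card_filter_add_card_filter_not (s := F) (fun α => (c α).2 = 0)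
  have h2 : (F.card : ℝ) ≤ 1 + K₀ * (2 * M) := by
    have h3 : F.card ≤ 1 + K₀ * (2 * M) := by
      rw [← hsplit]
      exact add_le_add h0 h1
    exact_mod_cast h3
  have hsB : 1 ≤ √B := by
    rw [Real.one_le_sqrt]
    exact hB1
  have h3 : (K₀ : ℝ) * (2 * M) ≤ K₀ * (4 * √B) := mul_le_mul_of_nonneg_left (by linarith) (by linarith)
  calc (F.card : ℝ) ≤ 1 + K₀ * (2 * M) := h2
    _ ≤ √B + K₀ * (4 * √B) := by linarith
    _ = (4 * K₀ + 1) * √B := by ring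

end Pool.Agent.T7
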