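import Pool.Agent.helper85.T7.Defs
import Pool.Agent.helper3.T6.SpecH
import Pool.Agent.helper5.T5.SFC
import Pool.Agent.helper78.T5.SMW
import Pool.Agent.helper5.T5.SEU
import Pool.Agent.helper52.T5.SFP
import Pool.Agent.helper82.T5.SUA
import Pool.Agent.helper82.T5.SUE
import Pool.Agent.helper82.T5.SLD
import Pool.Agent.helper24.T5.SUB
import Pool.Agent.helper3.T5.SLB
import Pool.Agent.helper55.T6.HLC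
import Pool.Agent.helper55.T6.HGC
import Pool.Agent.helper34.T6.HBAD
import Pool.Agent.helper69.T6.TEA

set_option autoImplicit false

/-!
# T7 (MP_16912e_nt), blocks L7 (lattices of one ideal) and S7 (slices): `SLU7_stmt`, `SLL7_stmt`

Page: /team-store/T7_PAGE_helper85.md, sections 2 and 3.

RULES. Row `t7:XXX` is a file `Pool/Agent/<seat>/T7/XXX.lean`: `import Pool.Agent.helper85.T7.SpecS`, `set_option autoImplicit false`, `namespace Pool.Agent.T7`,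
`open Finset NumberField Pool.Agent.helper3.FT Pool.Agent.helper47.RA Pool.Agent.T5 Pool.Agent.T6`, and the EXACT theorem line of the lock note (the other T7 rows only as hypotheses; an unused
hypothesis may stay). Auxiliary lemmas are prefixed `XXX_`. No `convert`, `congr!`, `native_decide`, no double quotes. Do not import other rows of T7.

AVAILABLE THEOREMS (imported, no hypotheses, cite them freely). Namespace `Pool.Agent.T5`: `SFA`, `SFC AIST : SFC_stmt`, `SMW`, `SEU`, `SFP AIST : SFP_stmt`, `ACEN`, `AGEX`, `AFUL`, `AIST`, `all_AALW`, `all_ALG`, and the auxiliary lemmas `SUA_sum`, `SUA_card`, `SUB_wt`, `SLB_fw`, `SUE_mem`, `SLD_mem`, `SLD_sum`, `SMW_up`, ..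
Namespace `Pool.Agent.helper26.T5` (statements in `helper26/T5/SpecB.lean`): `lemb : LEMB`, `AllL.aLBB`, `AllL.aL1`, `AllL.aL2`, `AllL.aLP`, `AllL.aLI`, `AllL.aLAW`, `AllL.aLRD`, `AllL.aLYT`, `lfu`, `lga`, `lrm`. Namespace `Pool.Agent.T6`: `HBAD HGC HLC : HBAD_stmt`, `TEA : TEA_stmt`.

NOTATION in the proofs: `s = √(-D)`, `Z = absNorm a`, `T = Y₂ s / √N` (the bound in `AL`), `B = Y₂ / √N`, so `T / s = B`; `N / 2 < s² ≤ N`.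
-/

namespace Pool.Agent.T7

open Finset Filter NumberField Pool.Agent.helper3.FT Pool.Agent.helper47.RA Pool.Agent.T5 Pool.Agent.T6

section
variable {K : Type} [Field K] [NumberField K]

/-- the pairs `(a, α)` in the good region with `gcd (y(α), y(γ)) = g`, at the scale `Y₂` -/
def GG7 (Q : QF K) (κ N Y Y₂ : ℝ) (g : ℕ) : Set (Ideal (𝓞 K) × 𝓞 K) :=
  {x | x.1 ∈ IA K Y ∧ x.2 ∈ AL Q x.1 (Y₂ * √(-(Q.D : ℝ)) / √N) ∧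
    ∃ γ, Adm Q x.1 x.2 γ ∧ GoodR Q κ Y₂ x.1 x.2 γ ∧ gd Q x.2 γ = g}

/-- all pairs `(a, α)` with `gcd (y(α), y(γ)) = 1`, at the scale `Y₂` -/
def G07 (Q : QF K) (N Y Y₂ : ℝ) : Set (Ideal (𝓞 K) × 𝓞 K) :=
  {x | x.1 ∈ IA K Y ∧ x.2 ∈ AL Q x.1 (Y₂ * √(-(Q.D : ℝ)) / √N) ∧ ∃ γ, Adm Q x.1 x.2 γ ∧ gd Q x.2 γ = 1}

end

open Classical in
/-- the numbers `w < g ≤ H` -/
noncomputable def g7 (w : ℕ) (H : ℝ) : Finset ℕ := (Icc 1 ⌊H⌋₊).filter (fun g => w < g)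

/-- `TAS7` for given `η, μ` -/
def AS7 (η : ℝ) (μ : ℝ → ℝ) : Prop :=
  ∀ κ : ℝ, 0 < κ → κ ≤ 1 / 100 → ∀ w : ℕ, 2 ≤ w → ∀ ε : ℝ, 0 < ε → ∃ ρ₀ N₀ : ℝ, 0 < ρ₀ ∧ ∀ N Y Y₂ : ℝ, N₀ ≤ N →
  0 < Y → Rg η N Y Y₂ → Y * Y₂ ≤ ρ₀ * N → ∀ F : Finset Tpl, (∀ t, t ∈ F ↔ Cen κ N Y Y₂ t) →
    |∑ t ∈ F, fw w t - Y * Y₂ * (μ κ * (6 / Real.pi ^ 2) * ∏ p ∈ pr w, (1 - 1 / (p : ℝ) ^ 2))| ≤ ε * (Y * Y₂)

/-! ## L7: one ideal -/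

/-- **LG7** (medium; `HBAD`). Few `α` of one ideal have a large greatest common divisor.
PROOF. `K₀ = ⌈2/η⌉₊ ≥ 1`, `δ = 1/(2 K₀²)`, `C = 4 K₀ + 1`, `N₀ = max 64 (16 ^ (2 K₀²) + 1)`. `a⁵ = (θ)` (`IA`), `RB Q (a ^ 2) e₁ e₂` (`AllL.aLBB`), `E` from `lemb`. Write `α = x e₁ + j e₂` (`RB.sp`; choose `x, j` for every `α`; `α` is determined by `(x, j)`).
`|j| Z² = |Y (cj e₁ * α)|` (`Y (cj e₁ * e₁) = 0`, `RB.det`, `absNorm (a ^ 2) = Z²`) and `|Y β| s/2 = |Im (E β)| ≤ ‖E β‖`: `|j| ≤ 2 v₁ e₁ v₁ α/(s Z²)`; `v₁ α ≤ Z √T`, `v₁ e₁ ^ 2 ≤ v₁ e₁ v₁ e₂ ≤ s Z²` (`RB.red`): `|j| ≤ 2 √(T/s) = 2 √B`. In the same way `|x| ≤ 2 v₁ e₂ v₁ α/(s Z²)`, so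
`|j| |x| ≤ 4 v₁ e₁ v₁ e₂ (v₁ α)²/(s² Z⁴) ≤ 4 T/s = 4 B`. So `|j (x - x')| ≤ 8 B =: W` for two `α, α'` with the same `j` (`B ≥ 1`). For `j ≠ 0` the number of `x` is `< K₀`: otherwise take a subset `S` of exactly `K₀` of them (`Finset.exists_subset_card_eq`), `HBAD` with `H = N^η ≥ 1`: `N² ≤ N^(η K₀) ≤ |Y θ| (16 B)^(K₀²) ≤ N 16^(K₀²) N^(δ K₀²) = 16^(K₀²) N^(3/2)`
(`AllL.aLYT`: `(Y θ)² s² ≤ 4 Z⁵ ≤ 4 N^(5/2)`, `s² > N/2`, so `|Y θ| ≤ N` for `N ≥ 64`; `B ≤ N^δ`): false for `N ≥ N₀`. (`Q.D < -4` as `N ≥ 64`.) For `j = 0`: `α = x e₁`, `Adm.pL` (content one) gives `|x| = 1` (`x ≠ 0`; a prime `q ∣ x` has `(q) a² ∣ (α)`), and `Y α > 0` fixes the sign: at most one `α`.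
The number of `j ≠ 0` is at most `4 √B`. Total: `1 + 4 √B K₀ ≤ C √B`. -/
def LG7_stmt : Prop := ∀ η : ℝ, 0 < η → ∃ δ C N₀ : ℝ, 0 < δ ∧ 1 ≤ C ∧
  ∀ (K : Type) [Field K] [NumberField K] (Q : QF K) (N Y Y₂ : ℝ) (a : Ideal (𝓞 K)), N₀ ≤ N →
  N / 2 < -(Q.D : ℝ) → -(Q.D : ℝ) ≤ N → Y ≤ √N → √N ≤ Y₂ → Y₂ ≤ N ^ (1 / 2 + δ) → a ∈ IA K Y →
  ∀ F : Finset (𝓞 K), (∀ α ∈ F, α ∈ AL Q a (Y₂ * √(-(Q.D : ℝ)) / √N) ∧ ∃ γ, Adm Q a α γ ∧ N ^ η < (gd Q α γ : ℝ)) →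
    (F.card : ℝ) ≤ C * √(Y₂ / √N)

/-- **LA7** (short; `AllL.aL1`). The weighted number of `α`.
PROOF. `WW = WW w ≥ 1`, `A = (36 WW/ε)² + 4 WW² + 1`. `a ∉ EX Q Y ℓ` is `NE Q a ℓ` (`a ∈ IA K Y`). `ℓ T = ℓ Y₂ s/√N ≥ A N s/√N = A √N s ≥ A s²`, so `ρ = 2 WW s/√(ℓ T) ≤ 2 WW/√A`, so `ρ ≤ 1` and `18 ρ ≤ ε`. `AllL.aL1` gives a finset `P` equal to `F`, `T/s = Y₂/√N`. (`√|D| = √(-D)`.) Compare `Pool/Agent/helper19/T5/LF1.lean`. -/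
def LA7_stmt : Prop := ∀ (w : ℕ) (ε : ℝ), 0 < ε → ∃ A : ℝ, 1 ≤ A ∧
  ∀ (K : Type) [Field K] [NumberField K] (Q : QF K) (N Y Y₂ l : ℝ) (a : Ideal (𝓞 K)), 0 < N →
  N / 2 < -(Q.D : ℝ) → -(Q.D : ℝ) ≤ N → 0 < Y₂ → 0 < l → A * N ≤ l * Y₂ → a ∈ IA K Y → a ∉ EX Q Y l →
  ∀ F : Finset (𝓞 K), (∀ α, α ∈ F ↔ α ∈ AL Q a (Y₂ * √(-(Q.D : ℝ)) / √N)) →
    |∑ α ∈ F, wt Q w a α - Real.pi * (Y₂ / √N)| ≤ ε * (Y₂ / √N)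

/-- **LB7** (short to medium; `AllL.aL2`). Outside the good region.
PROOF. `A = (200 WW/ε)² + 4 WW² + 1`; `ρ ≤ 2 WW/√A` as in LA7, so `ρ ≤ 1`, `100 ρ ≤ ε`. `θ` a generator of `a ^ 5` (`IA`). Let `α ∈ F` and `γ` as given, `γ θ' = Z α²`, `θ' = ± θ` (`AllL.aLYT`; `D < -4` as `N ≥ 10`), so `± γ` satisfies the equation with `θ` (`GoodR` uses `|Y γ|`). `nn α = Z² Λ`, `Λ = lamI a α` (`AllL.aLAW`), so `v₁ α = Z √Λ`; `v₁ θ ^ 2 = nn θ = Z⁵`, `v₁ γ = √Z Λ`.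
Not `GoodR κ Y₂` means one of: `Λ < κ Y₂ ≤ 2 κ T` (`T = Y₂ s/√N ≥ Y₂/2`): first alternative of `BadDir` with `2 κ`; `Y α s < 2 κ Z √Λ = 2 κ v₁ α`; `|Y γ| s < 2 κ v₁ γ`. So `BadDir Q a θ (2 κ) T α` and `AllL.aL2` gives `∑ ≤ 100 (2 κ + ρ) T/s`. Compare `Pool/Agent/helper14/T5/LF2.lean`. -/
def LB7_stmt : Prop := ∀ (w : ℕ) (ε : ℝ), 0 < ε → ∃ A : ℝ, 1 ≤ A ∧
  ∀ (K : Type) [Field K] [NumberField K] (Q : QF K) (κ N Y Y₂ l : ℝ) (a : Ideal (𝓞 K)), 0 < κ → κ ≤ 1 / 100 → 10 ≤ N →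
  N / 2 < -(Q.D : ℝ) → -(Q.D : ℝ) ≤ N → 0 < Y₂ → 0 < l → A * N ≤ l * Y₂ → a ∈ IA K Y → a ∉ EX Q Y l →
  ∀ F : Finset (𝓞 K), (∀ α ∈ F, α ∈ AL Q a (Y₂ * √(-(Q.D : ℝ)) / √N) ∧ ∃ γ, IsGam a α γ ∧ ¬ GoodR Q κ Y₂ a α γ) →
    ∑ α ∈ F, wt Q w a α ≤ (200 * κ + ε) * (Y₂ / √N)

/-- **LC7** (short to medium; from LG7; `AllL.aLI`, `all_AALW`). Large content or large greatest common divisor.
PROOF. `δ, C` from LG7; `A = 4/ε² + 1`, `B₀ = (2 C/ε)² + 1`. Split `F` by `Cont1 a α` (no prime `q` with `(q) a² ∣ (α)`). Not content one: `AllL.aLI` (`NE Q a ℓ`, `1 ≤ w`): at most `√(T/ℓ) + 2 π T/(w s) = √(T/ℓ) + (2 π/w) B`; `T ≤ Y₂` and `1/ℓ ≤ Y₂/(A N)`: `√(T/ℓ) ≤ Y₂/√(A N) = B/√A ≤ (ε/2) B`.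
Content one: the first alternative of the hypothesis is false, `Adm Q a α γ` holds (`AL`, `IA`), so `N^η < gd`: LG7: at most `C √B ≤ (ε/2) B` as `B ≥ B₀`. `2 π ≤ 10`. -/
def LC7_stmt : Prop := ∀ η : ℝ, 0 < η → ∃ δ : ℝ, 0 < δ ∧ ∀ w : ℕ, 2 ≤ w → ∀ ε : ℝ, 0 < ε → ∃ A B₀ N₀ : ℝ, 1 ≤ A ∧ 1 ≤ B₀ ∧
  ∀ (K : Type) [Field K] [NumberField K] (Q : QF K) (N Y Y₂ l : ℝ) (a : Ideal (𝓞 K)), N₀ ≤ N →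
  N / 2 < -(Q.D : ℝ) → -(Q.D : ℝ) ≤ N → Y ≤ √N → B₀ * √N ≤ Y₂ → Y₂ ≤ N ^ (1 / 2 + δ) → 0 < l → A * N ≤ l * Y₂ →
  a ∈ IA K Y → a ∉ EX Q Y l →
  ∀ F : Finset (𝓞 K), (∀ α ∈ F, α ∈ AL Q a (Y₂ * √(-(Q.D : ℝ)) / √N) ∧ (∀ p ∈ pr w, alw Q p a α) ∧
      ∃ γ, IsGam a α γ ∧ Q.Y γ ≠ 0 ∧
        ((∃ p : ℕ, p.Prime ∧ w < p ∧ Ideal.span {(p : 𝓞 K)} * a ^ 2 ∣ Ideal.span {α}) ∨ N ^ η < (gd Q α γ : ℝ))) →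
    (F.card : ℝ) ≤ (10 / w + ε) * (Y₂ / √N)

/-- **LE7** (short to medium; `AllL.aLP`, `lrm`). Content one at the scale `R √N`: at most `8 R` elements, and at most one if there is a very short vector.
PROOF. Here `T = R √N s/√N = R s`. First claim: `AllL.aLP` with `f = r = 1`: `#F ≤ 1 + 2 π T/s = 1 + 2 π R ≤ 8 R`. Second claim: let `α₀ ∈ a²`, `α₀ ≠ 0`, `v₁ α₀ ^ 2 ≤ Z² √N/(6 R)` and `α, β ∈ F`. `Z² ∣ Y (cj α₀ * α)` (`lrm` with `r = 1`) and `|Y (cj α₀ * α)| s/2 ≤ v₁ α₀ v₁ α ≤ Z² √(√N s/6)`,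
so `|Y (cj α₀ * α)|/Z² ≤ 2 √(√N/(6 s)) < 1` (`s > √(N/2)`: `√N/s < √2`, `4 √2/6 < 1`): `Y (cj α₀ * α) = 0`, and the same for `β`. So `cj α₀ * α = c`, `cj α₀ * β = c'` with integers `c, c' ≠ 0` (`Q.Y_eq_zero_iff`), so `c' α = c β`. As in the proof of `LP`: divide by the gcd: `u α = v β`, `u, v` coprime, `u > 0`;
a prime `p ∣ u` gives `(p) a² ∣ (β)` (`1 = i v + j p`, `β = i u α + j p β = p (..)`, `(..) ∈ a²`), against content one; so `u = 1`, in the same way `v = ± 1`, and `Y α, Y β > 0` give `α = β`. -/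
def LE7_stmt : Prop := ∀ (K : Type) [Field K] [NumberField K] (Q : QF K) (N R : ℝ) (a : Ideal (𝓞 K)), 0 < N → 1 ≤ R →
  N / 2 < -(Q.D : ℝ) → -(Q.D : ℝ) ≤ N → Prim a → a ≠ ⊥ →
  ∀ F : Finset (𝓞 K), (∀ α ∈ F, α ∈ AL Q a (R * √N * √(-(Q.D : ℝ)) / √N) ∧
      ∀ q : ℕ, q.Prime → ¬ Ideal.span {(q : 𝓞 K)} * a ^ 2 ∣ Ideal.span {α}) →
    (F.card : ℝ) ≤ 8 * R ∧
    ((∃ α ∈ a ^ 2, α ≠ 0 ∧ (Q.v₁ α) ^ 2 ≤ (Ideal.absNorm a : ℝ) ^ 2 * (√N / (6 * R))) → F.card ≤ 1)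

/-! ## Weights and Euler products -/

/-- **MW7** (short; `SMW_up`). `MW w / w^(1/8) → 0`. PROOF. `1 ≤ MW w ≤ exp 16 (log w)⁴` for `w ≥ 3` (`SMW_up`), `(log w)⁴/w^(1/8) → 0` (`isLittleO_log_rpow_atTop` or `isLittleO_log_rpow_rpow_atTop`), squeeze. -/
def MW7_stmt : Prop := Filter.Tendsto (fun w : ℕ => MW w / (w : ℝ) ^ (1 / 8 : ℝ)) Filter.atTop (nhds 0)

/-- **GT7** (medium; `TEA`). The tail of the Euler product.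
PROOF. `G p a = gg K p a * ((p : ℝ) ^ a) ^ (1/8)` for prime `p` (`≥ 0`). `∏_{p ∣ d} G p (v_p d) = d^(1/8) ∏ gg`. For `d > w`: `d^(1/8) ≥ w^(1/8)`. So the sum is at most `w^(-1/8) ∑_{d ≤ D} d^(1/8) ∏ gg ≤ w^(-1/8) ∏_{p ≤ D} (1 + ∑_{a=1}^D G p a)` (`TEA`).
`G p a ≤ 4 K (a + 1) (2^(-3/8))^a / p^(3/2)`: with `m = max 2 ((a+1)/2)` (natural division): if `a ≤ 4` then `m = 2` and `p^(a/8 - 2) ≤ p^(-3/2)`, `4 · 2^(-3a/8) ≥ 1`; if `a ≥ 5` then `m ≥ a/2`, `p^(a/8 - m) ≤ p^(-3a/8) = p^(-3/2) p^(-3(a-4)/8) ≤ p^(-3/2) 2^(-3(a-4)/8)`. `∑ (a+1) x^a` converges for `x = 2^(-3/8) < 1`, so `∑_a G p a ≤ C₀/p^(3/2)`;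
`1 + x ≤ exp x`, `∑_p p^(-3/2) ≤ ∑_n n^(-3/2) < ∞` (`Real.summable_one_div_nat_rpow`). Compare `Pool/Agent/helper66/T6/TEU.lean`. -/
def GT7_stmt : Prop := ∀ K : ℝ, 1 ≤ K → ∃ C : ℝ, 1 ≤ C ∧ ∀ w D : ℕ, 1 ≤ w →
  ∑ d ∈ (Icc 1 D).filter (fun d => w < d), ∏ p ∈ d.primeFactors, gg K p (d.factorization p) ≤ C / (w : ℝ) ^ (1 / 8 : ℝ)

/-! ## Upper bound for the slices -/

/-- **SUA7** (medium; from LA7, LB7, LC7; port of `Pool/Agent/helper82/T5/SUA.lean`). One field, upper bound.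
PROOF. `C = 210`. `ε₁ = ε/(3 + 3 MW w)`; `A` the sum of the three `A`, `B₀, N₀` from LC7, `N₀ ≥ 10`; `δ` from LC7. Fix `a ∈ IA K Y`, `a ∉ EX Q Y ℓ`, `P` = the finset of `AL Q a T` (`SFA`). LA7: `∑_P wt ≥ (π - ε₁) B`. `P₂` = the `α ∈ P` with some `γ`, `IsGam a α γ`, `¬ GoodR`: LB7: `∑ wt ≤ (200 κ + ε₁) B`. `P_B` = the `α ∈ P` as in LC7: at most `(10/w + ε₁) B` elements, each of weight `≤ MW w` (`SMW`).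
Let `α ∈ P`, `wt ≠ 0` (so all `alw Q p a α`), `α ∉ P₂ ∪ P_B`. `γ` by AGEX; `GoodR`, so `Y γ ≠ 0`; no prime `p > w` with `(p) a² ∣ (α)`, `gd ≤ N^η`; for `p ≤ w` `all_AALW` (2): `Adm Q a α γ`. If `gd = 1`: `(a, α) ∈ GG7 .. 1`. Otherwise all primes of `g = gd` are `> w` (AFUL, `all_AALW` (1)), so `w < g ≤ N^η`: `(a, α) ∈ GG7 .. g`, `g ∈ g7 w (N^η)` (exactly `SUA_class`, without the condition on `p²`).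
Sum over the ideals `a ∈ IA \ EX` (`EX ⊆ IA`, finite), with `SUA_sum`, `SUA_card`. -/
def SUA7_stmt : Prop := ∃ C : ℝ, 1 ≤ C ∧ ∀ η : ℝ, 0 < η → ∃ δ : ℝ, 0 < δ ∧
  ∀ κ : ℝ, 0 < κ → κ ≤ 1 / 100 → ∀ w : ℕ, 2 ≤ w → ∀ ε : ℝ, 0 < ε → ∃ A B₀ N₀ : ℝ, 1 ≤ A ∧ 1 ≤ B₀ ∧
  ∀ (K : Type) [Field K] [NumberField K] (Q : QF K) (N Y Y₂ l : ℝ), Module.finrank ℚ K = 2 → N₀ ≤ N →
  N / 2 < -(Q.D : ℝ) → -(Q.D : ℝ) ≤ N → Y ≤ √N → B₀ * √N ≤ Y₂ → Y₂ ≤ N ^ (1 / 2 + δ) → 0 < l → A * N ≤ l * Y₂ →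
  (Real.pi - (C * κ + MW w * (C / w) + ε)) * (Y₂ / √N) * (((IA K Y).ncard : ℝ) - ((EX Q Y l).ncard : ℝ)) ≤
    (∑ᶠ x ∈ GG7 Q κ N Y Y₂ 1, wt Q w x.1 x.2) + MW w * ∑ g ∈ g7 w (N ^ η), ((GG7 Q κ N Y Y₂ g).ncard : ℝ)

/-- **SUB7** (short to medium; port of `Pool/Agent/helper24/T5/SUB.lean`, which is imported, with `Y₂` in place of `N ^ (1/2 + d)`). Injection for `gcd = 1`. PROOF. As SUB: `all_ALG`, `ACEN` with `d = 1` (its condition on `v₁ α` is the one of `AL` with `Y₂ √(-D)/√N`), `SUB_wt`, `SMW` (weights `≥ 0`). -/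
def SUB7_stmt : Prop := ∀ κ N Y Y₂ : ℝ, 0 < κ → 10 ≤ N → 0 < Y → 0 < Y₂ → ∀ (w : ℕ) (F : Finset Tpl),
  (∀ t, Cen κ N Y Y₂ t → t ∈ F) →
  ∑ D ∈ DN N, SF (fun _ E => ∑ᶠ x ∈ GG7 E.Q κ N Y Y₂ 1, wt E.Q w x.1 x.2) D ≤ ∑ t ∈ F, fw w t

/-- **SUC7** (medium; from GT7; port of `Pool/Agent/helper20/T5/SUC.lean` or `Pool/Agent/helper92/T6/HINJ.lean`). The `gcd > w`.
PROOF. `η = min η' (1/100)`, `η'` from TD1 (`Rg_mono`, `N ^ η ≤ N ^ η'` for `N ≥ 1`); `C₁, K, N₁` from TD1 with `A = 1`; `C₂` from GT7. Fix `g ∈ g7 w (N^η)`. For `D ∈ DN N` with the chosen field `E` and `φ_D` from `all_ALG` (`D < -4` as `N ≥ 10`), `x = (a, α) ∈ GG7 .. g` with `γ`: `t = φ_D a α`, `TupOf Q a α γ g t`; `ACEN` with `d = g`: `Cen κ (N g²) Y Y₂ t`; `dis t = D g²`.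
`(D, (a, α)) ↦ t` is injective (`D` is determined by `dis t = D g²`; for one `D` the second clause of ALG). `F_g` = the image; TD1 with `d = g`: `∑_D #GG7 .. g ≤ #F_g ≤ C₁ Y Y₂ ∏ gg K p (v_p g)`. Sum over `g` (`g7 w (N^η) = (Icc 1 D).filter (w < ·)`, `D = ⌊N^η⌋₊`): GT7. Exchange the sums. -/
def SUC7_stmt : Prop := TD1_stmt → ∃ η : ℝ, 0 < η ∧ η ≤ 1 / 100 ∧ ∀ κ : ℝ, 0 < κ → κ ≤ 1 / 100 → ∃ C N₀ : ℝ, 1 ≤ C ∧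
  ∀ w : ℕ, 2 ≤ w → ∀ N Y Y₂ : ℝ, N₀ ≤ N → 0 < Y → Rg η N Y Y₂ →
  ∑ g ∈ g7 w (N ^ η), ∑ D ∈ DN N, SF (fun _ E => ((GG7 E.Q κ N Y Y₂ g).ncard : ℝ)) D ≤
    C / (w : ℝ) ^ (1 / 8 : ℝ) * (Y * Y₂)

/-- **SUE7** (medium; from SUA7, SUB7, SUC7; compare `Pool/Agent/helper82/T5/SUE.lean`). The inequality for fixed `κ, w`.
PROOF. `η₂` from SUC7, `δ₁` from SUA7 with `η = η₂`, `δ = min (δ₁, η₁, η₂)/4`. Fix `κ`; `C'` = the sum of the constants. Fix `w, ε`; `ε₁ = ε/4`: AS7 with `ε₁` gives `ρ₀, N₁`; `θ = min ρ₀ 1`; SUA7 with `ε₁` gives `A, B₀`. `Y₂ = θ N/Y`, so `Y Y₂ = θ N`; `K₀ = A/θ` (then `ℓ = K₀ Y`: `ℓ Y₂ = A N`, and `K₀ ≥ 1`); `κ₀ = θ/B₀` (`≤ 1`): `Y₂ = θ N/Y ≥ B₀ √N` and `Y ≤ κ₀ √N ≤ √N`, `Y ≤ Y₂` (`Y² ≤ κ₀² N ≤ θ N`).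
For large `N`: `Y₂ ≤ N/Y ≤ N^(1/2 + δ)` (`≤ N^(1/2 + δ₁)`), `Y₂ ≤ N^η_i Y` (`N/Y² ≤ N^(2δ)`, `2 δ ≤ η_i`), `N^(1 - η_i) ≤ θ N`, `θ N ≤ N`: `Rg η₁` and `Rg η₂`. SUA7 for every `D ∈ DN N` (chosen field; `cA`, `cE` are evaluated at the same field; `SFA` gives a field for every `D ∈ DN N`), sum over `D` (all terms through `SF`), `F` = the finset of `Cen` (`SFC AIST`), SUB7, SUC7, AS7:
`(π - (C κ + MW w C/w + ε₁)) B (∑ (cA - cE)) ≤ Y Y₂ (μ κ (6/π²) ∏ + ε₁ + MW w C₃/w^(1/8))`; divide by `B = Y₂/√N > 0`: `Y Y₂/B = Y √N`. `MW w/w ≤ MW w/w^(1/8)` (`w ≥ 1`); `∑ (cA - cE) ≥ 0`. -/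
def SUE7_stmt : Prop := TD1_stmt → ∀ (η₁ : ℝ) (μ : ℝ → ℝ), 0 < η₁ → AS7 η₁ μ → ∃ δ C : ℝ, 0 < δ ∧ 1 ≤ C ∧
  ∀ κ : ℝ, 0 < κ → κ ≤ 1 / 100 → ∃ C' : ℝ, 1 ≤ C' ∧ ∀ w : ℕ, 2 ≤ w → ∀ ε : ℝ, 0 < ε → ∃ K₀ κ₀ N₀ : ℝ, 1 ≤ K₀ ∧ 0 < κ₀ ∧
  ∀ N Y : ℝ, N₀ ≤ N → N ^ (1 / 2 - δ) ≤ Y → Y ≤ κ₀ * √N →
  (Real.pi - (C * κ + C' * (MW w / (w : ℝ) ^ (1 / 8 : ℝ)) + ε)) * ∑ D ∈ DN N, ((cA D Y : ℝ) - (cE D Y (K₀ * Y) : ℝ)) ≤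
    (μ κ * (6 / Real.pi ^ 2) * (∏ p ∈ pr w, (1 - 1 / (p : ℝ) ^ 2)) + C' * (MW w / (w : ℝ) ^ (1 / 8 : ℝ)) + ε) * (Y * √N)

/-- **SLU7R** (short to medium; from SUE7, MW7; port of the proof of `SLUA`, see `Pool/Agent/*/T5/SLUA.lean`). The limit. `η₁, μ, C₀` from TAS7: `|μ κ - π²/2 (1 - 1/√2)| ≤ C₀ κ`; `c0 π = π²/2 (1 - 1/√2) (6/π²)²`; `SEU`: the product tends to `6/π²`. Given `ε`: `κ` small, then `w` large (MW7, SEU), then the `ε` of SUE7 small: the coefficient on the left is at least `π (1 - η)` and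
the one on the right at most `π c0 + η`; the sum on the left is `≥ 0` (`EX ⊆ IA`; if `cA = 0`, `cE = 0`). -/
def SLU7R_stmt : Prop := TD1_stmt → TAS7_stmt → SLU7_stmt

/-! ## Lower bound for the slices -/

/-- **SLA7** (short to medium; from LA7, LE7; compare `Pool/Agent/helper92/T5/SLA.lean`). One field, lower bound.
PROOF. `A` from LA7 (`w, ε`). `Y₂ = R √N`, `Y₂/√N = R`, `ℓ₁ = A √N/R` (`ℓ₁ Y₂ = A N`), `ℓ₀ = √N/(6 R) ≤ ℓ₁`, so `EX .. ℓ₀ ⊆ EX .. ℓ₁ ⊆ IA` (finite, `SFA`). The sum over `G07` is the sum over `a ∈ IA` of the sum over the `α` with `(a, α) ∈ G07` (finite sets; `AL` finite by `SFA`). `a ∉ EX .. ℓ₁`: at most `∑_{AL} wt ≤ (π + ε) R` (LA7, `wt ≥ 0`).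
`a ∈ EX .. ℓ₁ \ EX .. ℓ₀`: at most `8 R` elements (LE7; `Adm.pL`), weight `≤ MW w` (`SMW`). `a ∈ EX .. ℓ₀`: at most one element. -/
def SLA7_stmt : Prop := ∀ (w : ℕ) (ε : ℝ), 0 < ε → ∃ A : ℝ, 1 ≤ A ∧
  ∀ (K : Type) [Field K] [NumberField K] (Q : QF K) (N Y R : ℝ), Module.finrank ℚ K = 2 → 10 ≤ N →
  N / 2 < -(Q.D : ℝ) → -(Q.D : ℝ) ≤ N → 1 ≤ R →
  (∑ᶠ x ∈ G07 Q N Y (R * √N), wt Q w x.1 x.2) ≤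
    (Real.pi + ε) * R * (((IA K Y).ncard : ℝ) - ((EX Q Y (A * √N / R)).ncard : ℝ)) +
    MW w * (8 * R) * (((EX Q Y (A * √N / R)).ncard : ℝ) - ((EX Q Y (√N / (6 * R))).ncard : ℝ)) +
    MW w * ((EX Q Y (√N / (6 * R))).ncard : ℝ)

/-- **SLB7** (short to medium; port of `Pool/Agent/helper3/T5/SLB.lean`, which is imported, with `Y₂` in place of `N ^ (1/2 + d)`; `all_ALG`, `ACEN`, `SFA`, `SMW`, `SLB_fw`). Tuples with fundamental discriminant. -/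
def SLB7_stmt : Prop := ∀ κ N Y Y₂ : ℝ, 0 < κ → 10 ≤ N → 2 < Y → 8 * Y < N → 0 < Y₂ → ∀ (w : ℕ) (F : Finset Tpl),
  (∀ t ∈ F, Cen κ N Y Y₂ t ∧ IsFund (dis t)) →
  ∑ t ∈ F, fw w t ≤ ∑ D ∈ DN N, SF (fun _ E => ∑ᶠ x ∈ G07 E.Q N Y Y₂, wt E.Q w x.1 x.2) D

/-- **SLD7** (medium; from SLA7, SLB7; compare `Pool/Agent/helper82/T5/SLD.lean`). The inequality for fixed `κ, w` at the scale `R √N`.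
PROOF. `η₂, C₂` from CND7; `δ = min (η₁, η₂)/4`, `C' = C₂`. `A` from SLA7 (`w, ε`). Given `R`: CND7 with `ε₂ = ε/(2 MW w)` gives `κ₂, N₂`; AS7 with `ε/2` gives `ρ₀, N₁`; `κ₀ = min κ₂ (min ρ₀ 1/R)`. `Y₂ = R √N`, `Y Y₂ ≤ κ₀ R N ≤ ρ₀ N` and `≤ N`; `Y ≤ Y₂`; for large `N`: `R √N ≤ N^η₁ Y` (`Y ≥ N^(1/2 - δ)`), `N^(1 - η₁) ≤ Y Y₂`: `Rg η₁ N Y Y₂`; `2 < Y`, `8 Y < N`.
`F` = the finset of `Cen` (`SFC AIST`); `∑_F fw ≤ ∑_{IsFund (dis t)} fw + MW w #{t ∈ F : fw ≠ 0, ¬ IsFund (dis t)}` (`SLD_sum`). CND7: the last one is at most `(C₂/w + ε₂) Y R √N`; SLB7 and SLA7 (chosen field for every `D ∈ DN N`, `SF`, `cA`, `cE`, `E.fin`) for the first; AS7: `∑_F fw ≥ (μ κ (6/π²) ∏ - ε/2) Y Y₂`. `MW w C₂/w ≤ C' MW w/w^(1/8)`, `MW w ε₂ = ε/2`. -/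
def SLD7_stmt : Prop := CND7_stmt → ∀ (η₁ : ℝ) (μ : ℝ → ℝ), 0 < η₁ → AS7 η₁ μ → ∃ δ : ℝ, 0 < δ ∧
  ∀ κ : ℝ, 0 < κ → κ ≤ 1 / 100 → ∃ C' : ℝ, 1 ≤ C' ∧ ∀ w : ℕ, 2 ≤ w → ∀ ε : ℝ, 0 < ε → ∃ A : ℝ, 1 ≤ A ∧
  ∀ R : ℝ, 1 ≤ R → ∃ κ₀ N₀ : ℝ, 0 < κ₀ ∧ ∀ N Y : ℝ, N₀ ≤ N → N ^ (1 / 2 - δ) ≤ Y → Y ≤ κ₀ * √N →
  (μ κ * (6 / Real.pi ^ 2) * (∏ p ∈ pr w, (1 - 1 / (p : ℝ) ^ 2)) - C' * (MW w / (w : ℝ) ^ (1 / 8 : ℝ)) - ε) * (Y * (R * √N)) ≤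
    (Real.pi + ε) * R * ∑ D ∈ DN N, ((cA D Y : ℝ) - (cE D Y (A * √N / R) : ℝ)) +
    MW w * (8 * R) * ∑ D ∈ DN N, ((cE D Y (A * √N / R) : ℝ) - (cE D Y (√N / (6 * R)) : ℝ)) +
    MW w * ∑ D ∈ DN N, (cE D Y (√N / (6 * R)) : ℝ)

/-- **SLP7** (medium; from SLD7). The pigeonhole.
PROOF. `δ` = the minimum of the `δ` of SLD7, TOT7, SLU7. `K₁, κ₁` from SLU7 with `ε = 1`; `C_T, κ_T` from TOT7. Fix `κ`; `C'` from SLD7. Fix `w, ε`; `ε₁ = ε/4`; `A` from SLD7 (`ε₁`). `R₀ = 1 + 4 MW w C_T/ε`, `I ≥ 32 MW w (c0 + 1)/ε`, `I ≥ 1`; `R_i = R₀ (6 A)^i`, `i < I` (`6 A R_i = R_(i+1)`). `κ₀` = the minimum of the `κ₀(R_i)` of SLD7 (`i < I`), `κ_T`, `κ₁`, `1/(6 K₁ R_(I-1))`; `N₀` the maximum. `l₀ = A/R_(I-1)`.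
Let `x_i = ∑_D (cE (A √N/R_i) - cE (√N/(6 R_i)))`. `cE D Y B` is monotone in `B` and at most `cA D Y` (`EX ⊆ EX' ⊆ IA`, finite: `SFA`). `A √N/R_(i+1) = √N/(6 R_i)`: the sum over `i < I` telescopes: `∑_i x_i = ∑_D (cE (A √N/R₀) - cE (√N/(6 R_(I-1)))) ≤ ∑_D (cA - cE (K₁ Y)) ≤ (c0 + 1) Y √N` (`K₁ Y ≤ √N/(6 R_(I-1))`).
So `x_i ≤ (c0 + 1) Y √N/I` for some `i` (`Finset.exists_le_of_sum_le` or by contradiction). SLD7 for this `R = R_i`, divided by `R`: `MW w 8 x_i ≤ (ε/4) Y √N`; `MW w ∑ cE/R ≤ MW w C_T Y √N/R₀ ≤ (ε/4) Y √N` (TOT7); `cE (l₀ √N) ≤ cE (A √N/R_i)`, so `∑ (cA - cE (A √N/R_i)) ≤ ∑ (cA - cE (l₀ √N))` (`≥ 0`, so `(π + ε₁)` may be replaced by `π + ε`). -/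
def SLP7_stmt : Prop := CND7_stmt → TOT7_stmt → SLU7_stmt → ∀ (η₁ : ℝ) (μ : ℝ → ℝ), 0 < η₁ → AS7 η₁ μ → ∃ δ : ℝ, 0 < δ ∧
  ∀ κ : ℝ, 0 < κ → κ ≤ 1 / 100 → ∃ C' : ℝ, 1 ≤ C' ∧ ∀ w : ℕ, 2 ≤ w → ∀ ε : ℝ, 0 < ε → ∃ l₀ κ₀ N₀ : ℝ, 0 < l₀ ∧ 0 < κ₀ ∧
  ∀ N Y : ℝ, N₀ ≤ N → N ^ (1 / 2 - δ) ≤ Y → Y ≤ κ₀ * √N →
  (μ κ * (6 / Real.pi ^ 2) * (∏ p ∈ pr w, (1 - 1 / (p : ℝ) ^ 2)) - C' * (MW w / (w : ℝ) ^ (1 / 8 : ℝ)) - ε) * (Y * √N) ≤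
    (Real.pi + ε) * ∑ D ∈ DN N, ((cA D Y : ℝ) - (cE D Y (l₀ * √N) : ℝ))

/-- **SLL7R** (short to medium; from SLP7, MW7). The limit, as SLU7R: `κ` small, `w` large, `ε` of SLP7 small; `(π c0 - η) Y √N ≤ (π + η) ∑`, and `∑ ≤ C_T Y √N` is not needed: `(π c0 - η)/(π + η) ≥ c0 - ε`. -/
def SLL7R_stmt : Prop := CND7_stmt → TAS7_stmt → TOT7_stmt → SLU7_stmt → SLL7_stmt

end Pool.Agent.T7
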